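import Mathlib

/-!
Invariant metrics on an orbit of a compact linear group and their Laplace eigenfunctions.
-/

open scoped Matrix ContDiff

namespace Pool.Agent.Lib.MP_1a4aff_gt

section

variable {A : Type*} [NormedRing A] [NormedAlgebra ℝ A] [StarRing A]

/-- The subgroup of the unitary group generated by the exponentials of the elements of `𝔤`. -/
noncomputable def grp (𝔤 : Submodule ℝ A) : Subgroup (unitary A) :=
  Subgroup.closure {u | ∃ X ∈ 𝔤, (u : A) = NormedSpace.exp X}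

/-- The operator underlying a group element. -/
noncomputable def val {𝔤 : Submodule ℝ A} (x : grp 𝔤) : A := (x : unitary A)

/-- Derivative of `F` along the left invariant vector field `X`. -/
noncomputable def dir (X : A) (F : A → ℂ) (z : A) : ℂ :=
  deriv (fun t : ℝ => F (z * NormedSpace.exp (t • X))) 0

/-- `𝔤` is a Lie algebra of skew elements with `[𝔤, 𝔤] = 𝔤` generating a compact group. -/
def IsCompactSemisimple (𝔤 : Submodule ℝ A) : Prop :=
  (∀ X ∈ 𝔤, star X = -X) ∧ (∀ X ∈ 𝔤, ∀ Y ∈ 𝔤, X * Y - Y * X ∈ 𝔤) ∧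
    𝔤 ≤ Submodule.span ℝ {Z | ∃ X ∈ 𝔤, ∃ Y ∈ 𝔤, Z = X * Y - Y * X} ∧
    IsCompact (Set.range (val : grp 𝔤 → A))

variable {E : Type*} [AddCommGroup E] [Module ℝ E] [Module A E] {d : ℕ}

/-- The `e i` lie in `𝔤`, the `e i • v` form a basis of the tangent space `𝔤 • v` of the orbit of
`v`, and the span of the `e i` is stable under conjugation by the stabiliser of `v`. -/
def IsFrame (𝔤 : Submodule ℝ A) (v : E) (e : Fin d → A) : Prop :=
  (∀ i, e i ∈ 𝔤) ∧ (LinearIndependent ℝ fun i => e i • v) ∧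
    (∀ X ∈ 𝔤, X • v ∈ Submodule.span ℝ (Set.range fun i => e i • v)) ∧
    ∀ k : grp 𝔤, val k • v = v → ∀ i, val k * e i * val k⁻¹ ∈ Submodule.span ℝ (Set.range e)

/-- `g` is the Gram matrix, in the basis `e i • v` of the tangent space at `v` of the orbit of `v`,
of an inner product invariant under the stabiliser of `v`. -/
def IsInvMetric (𝔤 : Submodule ℝ A) (v : E) (e : Fin d → A) (g : Matrix (Fin d) (Fin d) ℝ) :
    Prop :=
  g.PosDef ∧ ∀ k : grp 𝔤, val k • v = v → ∀ a b a' b' : Fin d → ℝ,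
    val k • (∑ i, a i • e i • v) = ∑ i, a' i • e i • v →
    val k • (∑ i, b i • e i • v) = ∑ i, b' i • e i • v → a' ⬝ᵥ g *ᵥ b' = a ⬝ᵥ g *ᵥ b

/-- The space of smooth functions on the orbit of `v`, pulled back to the group, that the Laplacian
of the invariant metric `g` multiplies by `l`. -/
noncomputable def eigFun (𝔤 : Submodule ℝ A) (v : E) (e : Fin d → A)
    (g : Matrix (Fin d) (Fin d) ℝ) (l : ℝ) : Submodule ℂ (grp 𝔤 → ℂ) :=
  Submodule.span ℂ {f | ∃ F : A → ℂ, ContDiff ℝ ∞ F ∧ (∀ x, f x = F (val x)) ∧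
    (∀ x y : grp 𝔤, val x • v = val y • v → f x = f y) ∧
    ∀ x : grp 𝔤, -∑ i, ∑ j, (g⁻¹ i j : ℂ) * dir (e i) (dir (e j) F) (val x) = l * F (val x)}

/-- The invariant metrics whose `l`-eigenspace has dimension `m l` for every real `l`. -/
def isoSet (𝔤 : Submodule ℝ A) (v : E) (e : Fin d → A) (m : ℝ → ℕ) :
    Set (Matrix (Fin d) (Fin d) ℝ) :=
  {g | IsInvMetric 𝔤 v e g ∧ ∀ l : ℝ, Module.rank ℂ (eigFun 𝔤 v e g l) = m l}

end

end Pool.Agent.Lib.MP_1a4aff_gt
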