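import Mathlib

-- part Pool.Agent.Lib.MP_1a4aff_gt.Noeth
section

/-!
Zariski closed conditions along a filter, characteristic polynomials of linear families and
multiplicities of symmetric operators.
-/

open Filter Polynomial Module Topology

set_option linter.unusedSectionVars false

namespace Pool.Agent.Lib.MP_1a4aff_gt

section

variable {σ P : Type*} [Fintype σ]

/-- Polynomial identities that hold eventually hold eventually all at once. -/
theorem noeth (U : Filter P) (a : P → σ → ℂ) :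
    ∀ᶠ A in U, ∀ p : MvPolynomial σ ℂ, (∀ᶠ B in U, MvPolynomial.eval (a B) p = 0) →
      MvPolynomial.eval (a A) p = 0 := by
  let I : Ideal (MvPolynomial σ ℂ) :=
    { carrier := {p | ∀ᶠ B in U, MvPolynomial.eval (a B) p = 0}
      add_mem' := fun hp hq => by
        filter_upwards [hp, hq] with B h1 h2
        rw [map_add, h1, h2, add_zero]
      zero_mem' := Eventually.of_forall fun _ => map_zero _
      smul_mem' := fun c p hp => by
        filter_upwards [hp] with B h1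
        rw [smul_eq_mul, map_mul, h1, mul_zero] }
  obtain ⟨S, hS⟩ : I.FG := IsNoetherian.noetherian I
  have h1 : ∀ᶠ A in U, ∀ p ∈ S, MvPolynomial.eval (a A) p = 0 :=
    (eventually_all_finset S).2 fun p hp => by
      have : p ∈ I := hS ▸ Ideal.subset_span hp
      exact this
  filter_upwards [h1] with A hA p hp
  have h2 : I ≤ RingHom.ker (MvPolynomial.eval (a A)) := by
    rw [← hS, Ideal.span_le]
    exact fun q hq => hA q hq
  exact h2 hp

theorem dvd_map_iff (Q : (MvPolynomial σ ℂ)[X]) (x : σ → ℂ) (l : ℂ) (e : ℕ) :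
    (X - C l) ^ e ∣ Q.map (MvPolynomial.eval x) ↔
      ∀ j < e, MvPolynomial.eval x ((Q.comp (X + C (MvPolynomial.C l))).coeff j) = 0 := by
  rw [X_sub_C_pow_dvd_iff, X_pow_dvd_iff]
  refine forall_congr' fun j => forall_congr' fun _ => ?_
  rw [← coeff_map, map_comp]
  simp

theorem noeth_dvd (U : Filter P) (a : P → σ → ℂ) :
    ∀ᶠ A in U, ∀ (Q : (MvPolynomial σ ℂ)[X]) (l : ℂ) (e : ℕ),
      (∀ᶠ B in U, (X - C l) ^ e ∣ Q.map (MvPolynomial.eval (a B))) →
      (X - C l) ^ e ∣ Q.map (MvPolynomial.eval (a A)) := by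
  filter_upwards [noeth U a] with A hA Q l e h
  rw [dvd_map_iff]
  exact fun j hj => hA _ (h.mono fun B hB => (dvd_map_iff _ _ _ _).1 hB j hj)

theorem map_eq_of_tendsto {U : Filter P} [U.NeBot] {a : P → σ → ℂ} {x : σ → ℂ}
    (h : Tendsto a U (𝓝 x)) (Q : (MvPolynomial σ ℂ)[X]) {q : ℂ[X]}
    (hq : ∀ᶠ B in U, Q.map (MvPolynomial.eval (a B)) = q) : Q.map (MvPolynomial.eval x) = q := by
  ext j
  rw [coeff_map]
  refine tendsto_nhds_unique (((MvPolynomial.continuous_eval (Q.coeff j)).tendsto x).comp h) ?_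
  refine tendsto_const_nhds.congr' (hq.mono fun B hB => ?_)
  simp only [Function.comp_apply]
  rw [← hB, coeff_map]

theorem exists_charpoly {W : Type*} [AddCommGroup W] [Module ℂ W] [FiniteDimensional ℂ W]
    (t : σ → Module.End ℂ W) : ∃ Q : (MvPolynomial σ ℂ)[X], ∀ x : σ → ℂ,
      Q.map (MvPolynomial.eval x) = (∑ s, x s • t s).charpoly := by
  classical
  let b := Module.finBasis ℂ W
  refine ⟨Matrix.charpoly (Matrix.of fun i j =>
    ∑ s, MvPolynomial.X s * MvPolynomial.C (LinearMap.toMatrix b b (t s) i j)), fun x => ?_⟩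
  rw [← Matrix.charpoly_map, ← LinearMap.charpoly_toMatrix _ b]
  congr 1
  ext i j
  simp [Matrix.sum_apply]

end

section

variable {W : Type*} [NormedAddCommGroup W] [InnerProductSpace ℂ W] [FiniteDimensional ℂ W]
  {T T' : Module.End ℂ W}

theorem count_roots (hT : T.IsSymmetric) (l : ℂ) :
    T.charpoly.roots.count l = finrank ℂ (T.eigenspace l) := by
  classical
  rw [hT.roots_charpoly_eq_eigenvalues rfl, ← hT.card_filter_eigenvalues_eq rfl,
    Multiset.count_map]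
  simp only [Finset.card, Finset.filter_val, Function.comp_apply, eq_comm]

theorem le_finrank_iff (hT : T.IsSymmetric) (l : ℂ) (e : ℕ) :
    e ≤ finrank ℂ (T.eigenspace l) ↔ (X - C l) ^ e ∣ T.charpoly := by
  rw [← count_roots hT, Polynomial.count_roots, le_rootMultiplicity_iff T.charpoly_monic.ne_zero]

theorem charpoly_eq_iff (hT : T.IsSymmetric) (hT' : T'.IsSymmetric) :
    T.charpoly = T'.charpoly ↔
      ∀ l, finrank ℂ (T.eigenspace l) = finrank ℂ (T'.eigenspace l) := by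
  constructor
  · intro h l
    rw [← count_roots hT, ← count_roots hT', h]
  · intro h
    have h1 : T.charpoly.roots = T'.charpoly.roots := by
      ext l
      rw [count_roots hT, count_roots hT', h]
    rw [hT.splits_charpoly.eq_prod_roots_of_monic T.charpoly_monic,
      hT'.splits_charpoly.eq_prod_roots_of_monic T'.charpoly_monic, h1]

theorem re_inner_eq (hT : T.IsSymmetric) (w : W) :
    (inner ℂ w (T w)).re =
      ∑ i, hT.eigenvalues rfl i * ‖(hT.eigenvectorBasis rfl).repr w i‖ ^ 2 := by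
  rw [← (hT.eigenvectorBasis rfl).repr.inner_map_map, PiLp.inner_apply, Complex.re_sum]
  refine Finset.sum_congr rfl fun i _ => ?_
  rw [hT.eigenvectorBasis_apply_self_apply]
  simp [Complex.sq_norm, Complex.normSq_apply]
  ring

theorem norm_sq_eq (hT : T.IsSymmetric) (w : W) :
    ‖w‖ ^ 2 = ∑ i, ‖(hT.eigenvectorBasis rfl).repr w i‖ ^ 2 := by
  rw [← (hT.eigenvectorBasis rfl).repr.norm_map, EuclideanSpace.norm_sq_eq]

theorem re_inner_le (hT : T.IsSymmetric) {M : ℝ} (h : ∀ l : ℝ, T.HasEigenvalue l → l ≤ M) (w : W) :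
    (inner ℂ w (T w)).re ≤ M * ‖w‖ ^ 2 := by
  rw [re_inner_eq hT, norm_sq_eq hT, Finset.mul_sum]
  exact Finset.sum_le_sum fun i _ => mul_le_mul_of_nonneg_right
    (h _ (hT.hasEigenvalue_eigenvalues rfl i)) (by positivity)

theorem re_inner_nonneg (hT : T.IsSymmetric) (h : ∀ l : ℝ, T.HasEigenvalue l → 0 ≤ l) (w : W) :
    0 ≤ (inner ℂ w (T w)).re := by
  rw [re_inner_eq hT]
  exact Finset.sum_nonneg fun i _ => mul_nonneg
    (h _ (hT.hasEigenvalue_eigenvalues rfl i)) (by positivity)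

theorem norm_apply_le (hT : T.IsSymmetric) {M : ℝ} (hM : 0 ≤ M)
    (h : ∀ i, |hT.eigenvalues rfl i| ≤ M) (w : W) : ‖T w‖ ≤ M * ‖w‖ := by
  refine (sq_le_sq₀ (norm_nonneg _) (by positivity)).1 ?_
  rw [mul_pow, norm_sq_eq hT, norm_sq_eq hT w, Finset.mul_sum]
  refine Finset.sum_le_sum fun i _ => ?_
  rw [hT.eigenvectorBasis_apply_self_apply, norm_mul, mul_pow]
  refine mul_le_mul_of_nonneg_right ?_ (by positivity)
  refine pow_le_pow_left₀ (norm_nonneg _) ?_ 2
  simpa using h i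

end

end Pool.Agent.Lib.MP_1a4aff_gt
end

-- part Pool.Agent.Lib.MP_1a4aff_gt.Gap
section

/-!
Skew representations of a perfect normed Lie algebra are bounded in terms of their dimension.
-/

open Module

namespace Pool.Agent.Lib.MP_1a4aff_gt

theorem le_of_gap {ι : Type*} [Fintype ι] {μ : ι → ℝ} {N : ℕ} (hN : Fintype.card ι ≤ N) {δ : ℝ}
    (hδ : 0 ≤ δ) (h : ∀ S : Finset ι, (∀ k ∈ S, ∀ l ∉ S, δ < |μ k - μ l|) → ∑ k ∈ S, μ k = 0)
    (k0 : ι) : μ k0 ≤ N * δ := by
  classical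
  by_contra h0
  push Not at h0
  have h1 : ∃ j : Fin N, ∀ k, ¬ ((j : ℕ) * δ < μ k ∧ μ k ≤ ((j : ℕ) + 1) * δ) := by
    by_contra h1
    push Not at h1
    choose f hf using h1
    have h2 : ∀ i j, f i = f j → (i : ℕ) ≤ j := fun i j hij => by
      have h3 : (i : ℕ) * δ < ((j : ℕ) + 1) * δ := (hf i).1.trans_le (hij ▸ (hf j).2)
      have h4 := lt_of_mul_lt_mul_right h3 hδ
      exact Nat.lt_succ_iff.1 (by exact_mod_cast h4)
    have h3 := Fintype.card_lt_of_injective_of_notMem f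
      (fun i j hij => Fin.ext (le_antisymm (h2 i j hij) (h2 j i hij.symm))) (b := k0) (by
        rintro ⟨j, rfl⟩
        have h4 : ((j : ℕ) + 1 : ℝ) ≤ N := by exact_mod_cast j.2
        nlinarith [(hf j).2])
    rw [Fintype.card_fin] at h3
    omega
  obtain ⟨j, hj⟩ := h1
  have h4 : ((j : ℕ) + 1 : ℝ) ≤ N := by exact_mod_cast j.2
  have h5 : (0 : ℝ) ≤ ((j : ℕ) + 1) * δ := by positivity
  refine (Finset.sum_pos (fun k hk => ?_) ⟨k0, ?_⟩).ne'
    (h (Finset.univ.filter fun k => ((j : ℕ) + 1) * δ < μ k) fun k hk l hl => ?_)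
  · exact h5.trans_lt (Finset.mem_filter.1 hk).2
  · exact Finset.mem_filter.2 ⟨Finset.mem_univ _, by nlinarith⟩
  · simp only [Finset.mem_filter, Finset.mem_univ, true_and, not_lt] at hk hl
    have h6 : μ l ≤ (j : ℕ) * δ := not_lt.1 fun h6 => hj l ⟨h6, hl⟩
    exact lt_of_lt_of_le (by linarith) (le_abs_self _)

theorem norm_rep_le {L W : Type*} [NormedAddCommGroup L] [NormedSpace ℝ L]
    [FiniteDimensional ℝ L] [NormedAddCommGroup W] [InnerProductSpace ℂ W]
    [FiniteDimensional ℂ W] (br : L → L → L) (hbr : ∀ X Y, ‖br X Y‖ ≤ 2 * ‖X‖ * ‖Y‖)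
    (hp : ∀ Z, Z ∈ Submodule.span ℝ {Z | ∃ X Y, Z = br X Y}) (σ : L → Module.End ℂ W)
    (hadd : ∀ X Y, σ (X + Y) = σ X + σ Y) (hsmul : ∀ (c : ℝ) X, σ (c • X) = (c : ℂ) • σ X)
    (hskew : ∀ X f g, inner ℂ (σ X f) g = -inner ℂ f (σ X g))
    (hσ : ∀ X Y f, σ (br X Y) f = σ X (σ Y f) - σ Y (σ X f)) {N : ℕ} (hN : finrank ℂ W ≤ N)
    (X : L) (w : W) : ‖σ X w‖ ≤ N * (2 * ‖X‖) * ‖w‖ := by
  classical
  have hT : (Complex.I • σ X).IsSymmetric := fun f g => by
    simp [inner_smul_left, inner_smul_right, hskew]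
  set μ := hT.eigenvalues rfl
  set b := hT.eigenvectorBasis rfl
  have hb : ∀ k, σ X (b k) = (-Complex.I * μ k) • b k := fun k => by
    have h1 : Complex.I • σ X (b k) = (μ k : ℂ) • b k := hT.apply_eigenvectorBasis rfl k
    rw [mul_smul, ← h1, smul_smul]
    simp
  let φ (k l) : L →ₗ[ℝ] ℂ :=
    { toFun Y := inner ℂ (b k) (σ Y (b l))
      map_add' Y Z := by simp [hadd]
      map_smul' c Y := by simp [hsmul] }
  have hφ : ∀ k l Y, φ k l Y = inner ℂ (b k) (σ Y (b l)) := fun _ _ _ => rfl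
  have h1 : ∀ k l, 2 * ‖X‖ < |μ k - μ l| → ∀ Y, φ k l Y = 0 := fun k l hkl => by
    let ψ := LinearMap.toContinuousLinearMap (φ k l)
    have h2 : ∀ Y, ‖ψ (br X Y)‖ = |μ k - μ l| * ‖ψ Y‖ := fun Y => by
      have h3 : ψ (br X Y) = (-Complex.I * ((μ k - μ l : ℝ) : ℂ)) * ψ Y := by
        change φ k l _ = _ * φ k l _
        rw [hφ, hφ, hσ, inner_sub_right, ← neg_neg (inner ℂ (b k) (σ X _)), ← hskew, hb, hb]
        simp [inner_smul_left, inner_smul_right]
        ring
      rw [h3, norm_mul, norm_mul, norm_neg, Complex.norm_I, Complex.norm_real, one_mul,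
        Real.norm_eq_abs]
    have hpos : 0 < |μ k - μ l| := lt_of_le_of_lt (by positivity) hkl
    have h3 : ‖ψ‖ ≤ ‖ψ‖ * (2 * ‖X‖) / |μ k - μ l| :=
      ψ.opNorm_le_bound (by positivity) fun Y => by
        rw [div_mul_eq_mul_div, le_div_iff₀ hpos, mul_comm, ← h2, mul_assoc]
        exact ψ.le_of_opNorm_le_of_le le_rfl (hbr X Y)
    rw [le_div_iff₀ hpos] at h3
    have h4 : ‖ψ‖ = 0 := le_antisymm (by nlinarith [norm_nonneg ψ]) (norm_nonneg _)
    intro Y
    change ψ Y = 0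
    rw [norm_eq_zero.1 h4, zero_apply]
  have h2 : ∀ S : Finset _, (∀ k ∈ S, ∀ l ∉ S, 2 * ‖X‖ < |μ k - μ l|) → ∑ k ∈ S, μ k = 0 := by
    intro S hS
    have h3 : ∀ Y Z, ∑ k ∈ S, inner ℂ (b k) (σ Y (σ Z (b k))) =
        ∑ k ∈ S, ∑ l ∈ S, φ k l Y * φ l k Z := fun Y Z =>
      Finset.sum_congr rfl fun k hk => by
        rw [← b.sum_repr' (σ Z (b k)), map_sum, inner_sum]
        refine (Finset.sum_subset S.subset_univ fun l _ hl => ?_).symm.trans
          (Finset.sum_congr rfl fun l _ => ?_)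
        · rw [map_smul, inner_smul_right, ← hφ k l, h1 k l (hS k hk l hl), mul_zero]
        · rw [map_smul, inner_smul_right, hφ, hφ, mul_comm]
    have h4 : Submodule.span ℝ {Z | ∃ X Y, Z = br X Y} ≤ LinearMap.ker (∑ k ∈ S, φ k k) := by
      rw [Submodule.span_le]
      rintro _ ⟨Y, Z, rfl⟩
      simp only [SetLike.mem_coe, LinearMap.mem_ker, LinearMap.sum_apply, hφ, hσ,
        inner_sub_right, Finset.sum_sub_distrib, h3]
      rw [Finset.sum_comm, sub_eq_zero]
      exact Finset.sum_congr rfl fun k _ => Finset.sum_congr rfl fun l _ => mul_comm _ _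
    have h5 := h4 (hp X)
    simp only [LinearMap.mem_ker, LinearMap.sum_apply, hφ, hb, inner_smul_right,
      b.inner_eq_one, mul_one, ← Finset.mul_sum] at h5
    have h6 := (mul_eq_zero.1 h5).resolve_left (by simp)
    exact_mod_cast h6
  have hN' : Fintype.card (Fin (finrank ℂ W)) ≤ N := by simpa using hN
  have h3 := norm_apply_le hT (M := N * (2 * ‖X‖)) (by positivity) (fun i => abs_le.2
    ⟨neg_le.1 (le_of_gap (μ := fun k => -μ k) hN' (by positivity) (fun S hS => by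
      rw [Finset.sum_neg_distrib, h2 S fun k hk l hl => ?_, neg_zero]
      rw [← abs_neg, neg_sub']
      exact hS k hk l hl) i), le_of_gap hN' (by positivity) h2 i⟩) w
  simpa [norm_smul] using h3

end Pool.Agent.Lib.MP_1a4aff_gt
end

-- part Pool.Agent.Lib.MP_1a4aff_gt.Abs
section

/-!
Abstract part: linear families of symmetric operators with prescribed multiplicities.
-/

open Filter Polynomial Module Topology

set_option linter.unusedSectionVars false

namespace Pool.Agent.Lib.MP_1a4aff_gt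

variable {H : Type*} [NormedAddCommGroup H] [InnerProductSpace ℂ H]

theorem mem_orth {V : Submodule ℂ H} {T T' : Module.End ℂ H}
    (h : ∀ f g, inner ℂ (T' f) g = inner ℂ f (T g)) (hT' : ∀ f ∈ V, T' f ∈ V) {f : H}
    (hf : f ∈ Vᗮ) : T f ∈ Vᗮ := fun u hu => by
  rw [← h]
  exact hf _ (hT' u hu)

theorem proj_comm {V : Submodule ℂ H} [FiniteDimensional ℂ V] {T T' : Module.End ℂ H}
    (h : ∀ f g, inner ℂ (T' f) g = inner ℂ f (T g)) (hT : ∀ f ∈ V, T f ∈ V)
    (hT' : ∀ f ∈ V, T' f ∈ V) (f : H) :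
    V.starProjection (T f) = T (V.starProjection f) := by
  refine Submodule.eq_starProjection_of_mem_orthogonal (hT _ (V.starProjection_apply_mem f)) ?_
  rw [← map_sub]
  exact mem_orth h hT' (V.sub_starProjection_mem_orthogonal f)

/-- Compression of an operator to a finite dimensional subspace. -/
noncomputable def cmp (V : Submodule ℂ H) [FiniteDimensional ℂ V] (T : Module.End ℂ H) :
    Module.End ℂ V :=
  V.orthogonalProjectionOnto.toLinearMap ∘ₗ T ∘ₗ V.subtype

/-- Multiplicity of an eigenvalue inside a subspace. -/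
noncomputable def mul (V : Submodule ℂ H) (T : Module.End ℂ H) (l : ℂ) : ℕ :=
  finrank ℂ (V ⊓ T.eigenspace l : Submodule ℂ H)

section

variable {V : Submodule ℂ H} [FiniteDimensional ℂ V] {T : Module.End ℂ H}

theorem cmp_apply (hT : ∀ f ∈ V, T f ∈ V) (f : V) : (cmp V T f : H) = T f :=
  Submodule.starProjection_eq_self_iff.2 (hT _ f.2)

theorem cmp_symm (hT : T.IsSymmetric) : (cmp V T).IsSymmetric := fun f g => by
  simp only [cmp, LinearMap.comp_apply, ContinuousLinearMap.coe_coe, Submodule.subtype_apply,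
    Submodule.inner_orthogonalProjectionOnto_eq_of_mem_left,
    Submodule.inner_orthogonalProjectionOnto_eq_of_mem_right]
  exact hT _ _

theorem finrank_cmp (hT : ∀ f ∈ V, T f ∈ V) (l : ℂ) :
    finrank ℂ ((cmp V T).eigenspace l) = mul V T l := by
  rw [mul, ← Submodule.finrank_map_subtype_eq]
  refine congrArg (fun S : Submodule ℂ H => finrank ℂ S) ?_
  ext f
  simp only [Submodule.mem_map, Module.End.mem_eigenspace_iff, Submodule.mem_inf,
    Submodule.subtype_apply]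
  constructor
  · rintro ⟨g, hg, rfl⟩
    exact ⟨g.2, by rw [← cmp_apply hT, hg]; rfl⟩
  · rintro ⟨h1, h2⟩
    exact ⟨⟨f, h1⟩, Subtype.ext (by rw [cmp_apply hT]; exact h2), rfl⟩

theorem proj_mem_eig (hT : T.IsSymmetric) (hV : ∀ f ∈ V, T f ∈ V) {l : ℂ} {f : H}
    (hf : f ∈ T.eigenspace l) : V.starProjection f ∈ T.eigenspace l := by
  rw [Module.End.mem_eigenspace_iff] at hf ⊢
  rw [← proj_comm hT hV hV, hf, map_smul]

theorem mul_add {V' : Submodule ℂ H} [FiniteDimensional ℂ V'] (hT : T.IsSymmetric)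
    (hV : ∀ f ∈ V, T f ∈ V) (h : V ≤ V') (l : ℂ) :
    mul V' T l = mul V T l + mul (V' ⊓ Vᗮ) T l := by
  have : FiniteDimensional ℂ (V ⊓ T.eigenspace l : Submodule ℂ H) :=
    Submodule.finiteDimensional_of_le inf_le_left
  have : FiniteDimensional ℂ (V' ⊓ Vᗮ ⊓ T.eigenspace l : Submodule ℂ H) :=
    Submodule.finiteDimensional_of_le (inf_le_left.trans inf_le_left)
  rw [mul, mul, mul, ← Submodule.finrank_sup_add_finrank_inf_eq]
  have h1 : V ⊓ T.eigenspace l ⊓ (V' ⊓ Vᗮ ⊓ T.eigenspace l) = ⊥ := by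
    rw [eq_bot_iff, ← V.inf_orthogonal_eq_bot]
    exact inf_le_inf inf_le_left (inf_le_left.trans inf_le_right)
  have h2 : V ⊓ T.eigenspace l ⊔ (V' ⊓ Vᗮ ⊓ T.eigenspace l) = V' ⊓ T.eigenspace l := by
    refine le_antisymm (sup_le (inf_le_inf h le_rfl) (inf_le_inf inf_le_left le_rfl)) ?_
    rintro f ⟨hf, hl⟩
    have h3 := proj_mem_eig hT hV hl
    have h4 := V.starProjection_apply_mem f
    rw [← add_sub_cancel (V.starProjection f) f]
    exact Submodule.add_mem_sup ⟨h4, h3⟩ ⟨⟨V'.sub_mem hf (h h4),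
      V.sub_starProjection_mem_orthogonal f⟩, Submodule.sub_mem _ hl h3⟩
  rw [h1, h2, finrank_bot, add_zero]

end

/-- Data of a linear family of symmetric operators. -/
structure Fam (H : Type*) [NormedAddCommGroup H] [InnerProductSpace ℂ H] (σ P : Type*)
    [Fintype σ] where
  t : σ → Module.End ℂ H
  a : P → σ → ℂ
  adm : Set P
  H0 : Submodule ℂ H
  U : ℕ → Submodule ℂ H
  symm : ∀ p ∈ adm, (∑ s, a p s • t s).IsSymmetric
  fin : ∀ N, FiniteDimensional ℂ (U N)
  le : ∀ N, U N ≤ H0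
  inv : ∀ N, ∀ p ∈ adm, ∀ f ∈ U N, (∑ s, a p s • t s) f ∈ U N
  mono : Monotone U
  dense : ∀ g ∈ H0, (∀ N, g ∈ (U N)ᗮ) → g = 0

variable {σ P : Type*} [Fintype σ] (F : Fam H σ P)

namespace Fam

/-- The operator of a parameter. -/
noncomputable def op (p : P) : Module.End ℂ H := ∑ s, F.a p s • F.t s

/-- Finite dimensional subspaces invariant under the family. -/
def Good (V : Submodule ℂ H) : Prop :=
  FiniteDimensional ℂ V ∧ V ≤ F.H0 ∧ ∀ p ∈ F.adm, ∀ f ∈ V, F.op p f ∈ V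

/-- Equal multiplicities on all good subspaces. -/
def Iso (p q : P) : Prop := ∀ V, F.Good V → ∀ l, mul V (F.op p) l = mul V (F.op q) l

/-- Parameters with multiplicity function `m`. -/
def Spec (m : ℂ → ℕ) (p : P) : Prop :=
  p ∈ F.adm ∧ ∀ l, F.H0 ⊓ (F.op p).eigenspace l ≤ F.U (m l) ∧ mul F.H0 (F.op p) l = m l

theorem sym (p : P) (hp : p ∈ F.adm) : (F.op p).IsSymmetric := F.symm p hp

theorem good_U (N : ℕ) : F.Good (F.U N) := ⟨F.fin N, F.le N, F.inv N⟩

variable {F}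

theorem Good.sup {V V' : Submodule ℂ H} (h : F.Good V) (h' : F.Good V') : F.Good (V ⊔ V') := by
  have := h.1
  have := h'.1
  refine ⟨inferInstance, sup_le h.2.1 h'.2.1, fun p hp f hf => ?_⟩
  obtain ⟨x, hx, y, hy, rfl⟩ := Submodule.mem_sup.1 hf
  rw [map_add]
  exact Submodule.add_mem_sup (h.2.2 p hp x hx) (h'.2.2 p hp y hy)

theorem Good.orth {V V' : Submodule ℂ H} (h : F.Good V) (h' : F.Good V') :
    F.Good (V' ⊓ Vᗮ) := by
  have := h'.1
  exact ⟨Submodule.finiteDimensional_of_le inf_le_left, inf_le_left.trans h'.2.1,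
    fun p hp f hf => ⟨h'.2.2 p hp f hf.1, mem_orth (F.sym p hp) (h.2.2 p hp) hf.2⟩⟩

theorem cmp_op (V : Submodule ℂ H) [FiniteDimensional ℂ V] (p : P) :
    cmp V (F.op p) = ∑ s, F.a p s • cmp V (F.t s) := by
  ext f
  simp [cmp, op]

theorem Spec.mul_eq {m : ℂ → ℕ} {p : P} (hp : F.Spec m p) {V : Submodule ℂ H} {l : ℂ}
    (h1 : F.U (m l) ≤ V) (h2 : V ≤ F.H0) : mul V (F.op p) l = m l := by
  rw [← (hp.2 l).2, mul, mul]
  refine congrArg (fun S : Submodule ℂ H => finrank ℂ S) ?_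
  exact le_antisymm (inf_le_inf h2 le_rfl) (le_inf ((hp.2 l).1.trans h1) inf_le_right)

theorem stab (𝓤 : Ultrafilter P) {m : ℂ → ℕ} (hS : ∀ᶠ p in 𝓤, F.Spec m p) :
    ∀ᶠ p in 𝓤, ∀ V, F.Good V → ∀ l, ∀ᶠ q in 𝓤, mul V (F.op q) l = mul V (F.op p) l := by
  have h2 : ∀ V, F.Good V → ∀ l, ∃ e, ∀ᶠ q in 𝓤, mul V (F.op q) l = e := fun V hV l => by
    have := hV.1
    obtain ⟨e, -, he⟩ := (𝓤.map fun q => mul V (F.op q) l).eq_pure_of_finite_mem
      (Set.finite_Iic (finrank ℂ V))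
      (Ultrafilter.mem_map.2 (univ_mem' fun q => Submodule.finrank_mono inf_le_left))
    refine ⟨e, ?_⟩
    have h : {e} ∈ (𝓤.map fun q => mul V (F.op q) l) := by rw [he]; simp
    exact h
  filter_upwards [noeth_dvd 𝓤 F.a, hS] with p hp hpS
  have h1 : ∀ V, F.Good V → ∀ l e, (∀ᶠ q in 𝓤, mul V (F.op q) l = e) →
      e ≤ mul V (F.op p) l := fun V hV l e he => by
    have := hV.1
    obtain ⟨Q, hQ⟩ := exists_charpoly fun s => cmp V (F.t s)
    rw [← finrank_cmp (hV.2.2 p hpS.1), le_finrank_iff (cmp_symm (F.sym p hpS.1)), cmp_op, ← hQ]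
    refine hp Q l e ?_
    filter_upwards [he, hS] with q hq hqS
    rw [hQ, ← cmp_op, ← le_finrank_iff (cmp_symm (F.sym q hqS.1)),
      finrank_cmp (hV.2.2 q hqS.1), hq]
  intro V hV l
  have hV' := hV.sup (F.good_U (m l))
  have hW := hV.orth hV'
  have := hV.1
  have := hV'.1
  obtain ⟨e, he⟩ := h2 V hV l
  obtain ⟨e', he'⟩ := h2 _ hW l
  have h3 : ∀ q, F.Spec m q → mul V (F.op q) l +
      mul ((V ⊔ F.U (m l)) ⊓ Vᗮ) (F.op q) l = m l := fun q hq => by
    rw [← mul_add (F.sym q hq.1) (hV.2.2 q hq.1) le_sup_left]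
    exact hq.mul_eq le_sup_right hV'.2.1
  obtain ⟨q, hq1, hq2, hq3⟩ := (he.and (he'.and hS)).exists
  have h4 := h3 q hq3
  have h5 := h3 p hpS
  have h6 := h1 V hV l e he
  have h7 := h1 _ hW l e' he'
  exact he.mono fun r hr => by omega

theorem exists_iso (𝓤 : Ultrafilter P) {m : ℂ → ℕ} (hS : ∀ᶠ p in 𝓤, F.Spec m p) :
    ∃ p0, F.Spec m p0 ∧ ∀ᶠ p in 𝓤, F.Iso p p0 := by
  obtain ⟨p0, h0, h1⟩ := (hS.and (stab 𝓤 hS)).exists
  refine ⟨p0, h0, (stab 𝓤 hS).mono fun p hp V hV l => ?_⟩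
  obtain ⟨q, h2, h3⟩ := ((hp V hV l).and (h1 V hV l)).exists
  rw [← h2, h3]

theorem iso_lim {𝓤 : Filter P} [𝓤.NeBot] {p p0 : P} (hp : p ∈ F.adm) (hp0 : p0 ∈ F.adm)
    (h : Tendsto F.a 𝓤 (𝓝 (F.a p))) (h' : ∀ᶠ q in 𝓤, q ∈ F.adm ∧ F.Iso q p0) : F.Iso p p0 := by
  intro V hV
  have := hV.1
  have key : ∀ q ∈ F.adm, (cmp V (F.op q)).charpoly = (cmp V (F.op p0)).charpoly ↔
      ∀ l, mul V (F.op q) l = mul V (F.op p0) l := fun q hq => by
    rw [charpoly_eq_iff (cmp_symm (F.sym q hq)) (cmp_symm (F.sym p0 hp0))]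
    simp only [finrank_cmp (hV.2.2 q hq), finrank_cmp (hV.2.2 p0 hp0)]
  obtain ⟨Q, hQ⟩ := exists_charpoly fun s => cmp V (F.t s)
  rw [← key p hp, cmp_op V p, ← hQ]
  refine map_eq_of_tendsto h Q (h'.mono fun q hq => ?_)
  rw [hQ, ← cmp_op, key q hq.1]
  exact hq.2 V hV

theorem Iso.spec {m : ℂ → ℕ} {p p0 : P} (h : F.Iso p p0) (hp : p ∈ F.adm) (h0 : F.Spec m p0) :
    F.Spec m p := by
  refine ⟨hp, fun l => ?_⟩
  have h1 : ∀ N, m l ≤ N → mul (F.U N) (F.op p) l = m l := fun N hN => by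
    rw [h _ (F.good_U N)]
    exact h0.mul_eq (F.mono hN) (F.le N)
  have h2 : F.H0 ⊓ (F.op p).eigenspace l ≤ F.U (m l) := by
    rintro f ⟨hf, hl⟩
    have := F.fin (m l)
    have h3 := (F.U (m l)).starProjection_apply_mem f
    rw [← sub_add_cancel f ((F.U (m l)).starProjection f)]
    refine Submodule.add_mem _ ?_ h3
    rw [F.dense (f - (F.U (m l)).starProjection f) (F.H0.sub_mem hf (F.le _ h3)) fun N => ?_]
    · exact Submodule.zero_mem _
    have hN : m l ≤ max N (m l) := le_max_right _ _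
    refine Submodule.orthogonal_le (F.mono (le_max_left N (m l))) ?_
    generalize max N (m l) = M at hN
    have := F.fin M
    have : FiniteDimensional ℂ (F.U M ⊓ (F.op p).eigenspace l : Submodule ℂ H) :=
      Submodule.finiteDimensional_of_le inf_le_left
    have h4 : F.U (m l) ⊓ (F.op p).eigenspace l = F.U M ⊓ (F.op p).eigenspace l :=
      Submodule.eq_of_le_of_finrank_eq (inf_le_inf (F.mono hN) le_rfl)
        ((h1 _ le_rfl).trans (h1 _ hN).symm)
    have h5 : (F.U M).starProjection f ∈ F.U (m l) ⊓ (F.op p).eigenspace l := by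
      rw [h4]
      exact ⟨(F.U M).starProjection_apply_mem f, proj_mem_eig (F.sym p hp) (F.inv M p hp) hl⟩
    have h6 := (F.U M).sub_starProjection_mem_orthogonal f
    rw [Submodule.eq_starProjection_of_mem_orthogonal h5.1
      (Submodule.orthogonal_le (F.mono hN) h6)]
    exact h6
  refine ⟨h2, ?_⟩
  rw [← h1 _ le_rfl, mul, mul]
  refine congrArg (fun S : Submodule ℂ H => finrank ℂ S) ?_
  exact le_antisymm (le_inf h2 inf_le_right) (inf_le_inf (F.le _) le_rfl)

theorem Iso.transfer {p p0 : P} (h : F.Iso p p0) (hp : p ∈ F.adm) {V : Submodule ℂ H}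
    (hV : F.Good V) {L : Module.End ℂ H} (hL : L.IsSymmetric) (hLV : ∀ f ∈ V, L f ∈ V)
    (hc : ∀ q ∈ F.adm, ∀ f ∈ V, F.op q (L f) = L (F.op q f)) {s : ℝ} (hs : s ≠ 0)
    (h0 : ∀ f ∈ V, 0 ≤ (inner ℂ f (((s : ℂ) • F.op p0 - L) f)).re) :
    ∀ f ∈ V, 0 ≤ (inner ℂ f (((s : ℂ) • F.op p - L) f)).re := by
  have := hV.1
  have hs' : (s : ℂ) ≠ 0 := Complex.ofReal_ne_zero.2 hs
  have hS : ((s : ℂ) • F.op p - L).IsSymmetric :=
    (LinearMap.IsSymmetric.smul (by simp) (F.sym p hp)).sub hL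
  have hSV : ∀ f ∈ V, ((s : ℂ) • F.op p - L) f ∈ V := fun f hf =>
    V.sub_mem (V.smul_mem _ (hV.2.2 p hp f hf)) (hLV f hf)
  intro f hf
  have key := re_inner_nonneg (cmp_symm (V := V) hS) (fun μ hμ => ?_) ⟨f, hf⟩
  · rwa [Submodule.coe_inner, cmp_apply hSV] at key
  let E := V ⊓ ((s : ℂ) • F.op p - L).eigenspace μ
  have hE : ∀ f ∈ E, L f ∈ E := fun f hf => ⟨hLV f hf.1, by
    have h1 := Module.End.mem_eigenspace_iff.1 hf.2
    refine Module.End.mem_eigenspace_iff.2 ?_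
    rw [← map_smul, ← h1]
    simp [hc p hp f hf.1]⟩
  have : FiniteDimensional ℂ E := Submodule.finiteDimensional_of_le inf_le_left
  have : Nontrivial E := by
    rw [← Module.finrank_pos_iff (R := ℂ)]
    change 0 < mul _ _ _
    rw [← finrank_cmp hSV, Module.finrank_pos_iff, Submodule.nontrivial_iff_ne_bot]
    exact hμ
  obtain ⟨c, hc'⟩ := Module.End.exists_eigenvalue (L.restrict hE)
  obtain ⟨g, hg⟩ := hc'.exists_hasEigenvector
  have hg1 : L g = c • (g : H) := congrArg Subtype.val hg.apply_eq_smul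
  have hW : F.Good (V ⊓ L.eigenspace c) :=
    ⟨Submodule.finiteDimensional_of_le inf_le_left, inf_le_left.trans hV.2.1,
      fun q hq f hf => ⟨hV.2.2 q hq f hf.1, Module.End.mem_eigenspace_iff.2 (by
        rw [← hc q hq f hf.1, Module.End.mem_eigenspace_iff.1 hf.2, map_smul])⟩⟩
  have := hW.1
  have hpos : ∀ q, 0 < mul (V ⊓ L.eigenspace c) (F.op q) ((μ + c) / s) ↔
      V ⊓ L.eigenspace c ⊓ (F.op q).eigenspace ((μ + c) / s) ≠ ⊥ := fun q => by
    have : FiniteDimensional ℂ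
      (V ⊓ L.eigenspace c ⊓ (F.op q).eigenspace ((μ + c) / s) : Submodule ℂ H) :=
      Submodule.finiteDimensional_of_le inf_le_left
    rw [mul, Module.finrank_pos_iff, Submodule.nontrivial_iff_ne_bot]
  have h2 := (hpos p).2 ((Submodule.ne_bot_iff _).2 ⟨g, ⟨⟨g.2.1,
    Module.End.mem_eigenspace_iff.2 hg1⟩, Module.End.mem_eigenspace_iff.2 (by
      have h3 := Module.End.mem_eigenspace_iff.1 g.2.2
      simp only [LinearMap.sub_apply, LinearMap.smul_apply, hg1, sub_eq_iff_eq_add] at h3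
      rw [div_eq_inv_mul, mul_smul, add_smul, ← h3, inv_smul_smul₀ hs'])⟩,
    fun h3 => hg.2 (Subtype.ext h3)⟩)
  rw [h _ hW, hpos] at h2
  obtain ⟨u, ⟨⟨hu1, hu2⟩, hu3⟩, hu4⟩ := (Submodule.ne_bot_iff _).1 h2
  have h4 := h0 u hu1
  rw [LinearMap.sub_apply, LinearMap.smul_apply, Module.End.mem_eigenspace_iff.1 hu2,
    Module.End.mem_eigenspace_iff.1 hu3, smul_smul, mul_div_cancel₀ _ hs', ← sub_smul,
    add_sub_cancel_right, inner_smul_right, inner_self_eq_norm_sq_to_K] at h4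
  have h5 : 0 < ‖u‖ ^ 2 := by positivity
  refine nonneg_of_mul_nonneg_left ?_ h5
  simpa [pow_two] using h4

end Fam

end Pool.Agent.Lib.MP_1a4aff_gt
end

-- part Pool.Agent.Lib.MP_1a4aff_gt.Util
section

/-!
Auxiliary facts on positive matrices and a concentration lemma.
-/

open MeasureTheory Filter Topology
open scoped Matrix MatrixOrder

set_option linter.unusedSectionVars false

namespace Pool.Agent.Lib.MP_1a4aff_gt

section

variable {ι : Type*} [Fintype ι] [DecidableEq ι]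

theorem pair_nonneg {A B : Matrix ι ι ℝ} (hA : A.PosSemidef) (hB : B.PosSemidef) :
    0 ≤ ∑ i, ∑ j, A i j * B i j := by
  simpa [dotProduct, Matrix.mulVec] using (hA.hadamard hB).dotProduct_mulVec_nonneg fun _ => 1

theorem exists_lower {A : Matrix ι ι ℝ} (hA : A.PosDef) :
    ∃ a : ℝ, 0 < a ∧ (A - a • (1 : Matrix ι ι ℝ)).PosSemidef := by
  cases isEmpty_or_nonempty ι
  · exact ⟨1, one_pos, by rw [Subsingleton.elim (_ - _) 0]; exact Matrix.PosSemidef.zero⟩
  obtain ⟨a, ha, h⟩ := (CFC.exists_pos_algebraMap_le_iff (a := A) hA.1).2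
    fun x hx => hA.isStrictlyPositive.spectrum_pos hx
  exact ⟨a, ha, by rwa [← Algebra.algebraMap_eq_smul_one]⟩

theorem pair_lower {A B : Matrix ι ι ℝ} {a : ℝ} (hA : (A - a • (1 : Matrix ι ι ℝ)).PosSemidef)
    (hB : B.PosSemidef) : a * ∑ i, B i i ≤ ∑ i, ∑ j, A i j * B i j := by
  have h := pair_nonneg hA hB
  simpa [sub_mul, Matrix.one_apply, Finset.mul_sum] using h

theorem abs_le_trace {A : Matrix ι ι ℝ} (hA : A.PosSemidef) (i j : ι) :
    |A i j| ≤ ∑ k, A k k := by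
  have h1 := hA.dotProduct_mulVec_nonneg (Pi.single i 1 + Pi.single j 1)
  have h2 := hA.dotProduct_mulVec_nonneg (Pi.single i 1 - Pi.single j 1)
  have h3 : A j i = A i j := hA.1.apply i j
  have h4 : ∀ k, A k k ≤ ∑ k, A k k := fun k =>
    Finset.single_le_sum (f := fun k => A k k) (fun k _ => hA.diag_nonneg) (Finset.mem_univ k)
  simp [Matrix.mulVec_add, Matrix.mulVec_sub] at h1 h2
  rw [abs_le]
  constructor <;> linarith [h4 i, h4 j]

theorem sum_conj {R : Type*} [Ring R] [Algebra ℂ R] (A T : Matrix ι ι ℝ) (x : ι → R) :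
    ∑ i, ∑ j, (A i j : ℂ) • ((∑ k, (T k i : ℂ) • x k) * ∑ l, (T l j : ℂ) • x l) =
      ∑ k, ∑ l, ((T * A * Tᵀ) k l : ℂ) • (x k * x l) := by
  simp only [Finset.sum_mul_sum]
  simp only [Finset.smul_sum, Matrix.mul_apply, Matrix.transpose_apply,
    Complex.ofReal_sum, Finset.sum_smul, Finset.sum_mul, smul_mul_smul_comm, smul_smul,
    Complex.ofReal_mul]
  rw [Finset.sum_comm, Finset.sum_congr rfl fun j _ => Finset.sum_comm, Finset.sum_comm]
  refine Finset.sum_congr rfl fun k _ => ?_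
  rw [Finset.sum_congr rfl fun j _ => Finset.sum_comm, Finset.sum_comm]
  refine Finset.sum_congr rfl fun l _ => Finset.sum_congr rfl fun j _ =>
    Finset.sum_congr rfl fun i _ => ?_
  congr 1
  ring

theorem posSemidef_re_inner {H : Type*} [NormedAddCommGroup H] [InnerProductSpace ℂ H]
    (z : ι → H) : (Matrix.of fun i j => (inner ℂ (z i) (z j)).re).PosSemidef :=
  letI : InnerProductSpace ℝ H := InnerProductSpace.complexToReal
  Matrix.posSemidef_gram ℝ z

end

theorem exists_integral_neg {X : Type*} [TopologicalSpace X] [CompactSpace X] [MeasurableSpace X]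
    [BorelSpace X] (μ : Measure X) [IsProbabilityMeasure μ] [μ.IsOpenPosMeasure] {q h : X → ℝ}
    (hq : Continuous q) (hh : Continuous h) (h0 : ∀ x, 0 ≤ q x) {x0 : X} (h1 : 0 < q x0)
    (h2 : ∀ x, q x0 ≤ q x → h x < 0) : ∃ j : ℕ, ∫ x, q x ^ j * h x ∂μ < 0 := by
  have hi : ∀ {f : X → ℝ}, Continuous f → Integrable f μ := fun hf =>
    hf.integrable_of_hasCompactSupport (HasCompactSupport.of_compactSpace _)
  obtain ⟨r, hr0, hr1, hr⟩ : ∃ r, 0 ≤ r ∧ r < q x0 ∧ ∀ x, 0 ≤ h x → q x ≤ r := by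
    rcases {x | 0 ≤ h x}.eq_empty_or_nonempty with he | he
    · exact ⟨0, le_rfl, h1, fun x hx => (Set.eq_empty_iff_forall_notMem.1 he x hx).elim⟩
    · obtain ⟨y, hy, hy'⟩ := (isClosed_le continuous_const hh).isCompact.exists_isMaxOn he
        hq.continuousOn
      exact ⟨q y, h0 y, not_le.1 fun h3 => (h2 y h3).not_ge hy, fun x hx => hy' hx⟩
  obtain ⟨s, hrs, hs⟩ := exists_between hr1
  obtain ⟨C, hC⟩ := (isCompact_range hh).bddAbove
  have hs0 : 0 < s := hr0.trans_lt hrs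
  let ψ : X → ℝ := fun x => min (max (q x - s) 0) (max (-h x) 0)
  have hψ : 0 < ∫ x, ψ x ∂μ :=
    Continuous.integral_pos_of_hasCompactSupport_nonneg_nonzero (x := x0) (by fun_prop)
      (HasCompactSupport.of_compactSpace _) (fun x => by positivity)
      (lt_min (lt_max_of_lt_left (sub_pos.2 hs))
        (lt_max_of_lt_left (neg_pos.2 (h2 x0 le_rfl)))).ne'
  obtain ⟨j, hj⟩ := (((tendsto_pow_atTop_nhds_zero_of_lt_one (div_nonneg hr0 hs0.le)
    ((div_lt_one hs0).2 hrs)).mul_const |C|).eventually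
      (gt_mem_nhds (by rwa [zero_mul]))).exists
  refine ⟨j, lt_of_le_of_lt (integral_mono (g := fun x => r ^ j * |C| - s ^ j * ψ x)
    (hi (by fun_prop)) (hi (by fun_prop)) fun x => ?_) ?_⟩
  · have h3 : 0 ≤ r ^ j * |C| := by positivity
    have h4 : 0 ≤ q x ^ j := pow_nonneg (h0 x) j
    rcases le_or_gt 0 (h x) with hx | hx
    · have h5 : ψ x = 0 := by simp [ψ, hx]
      simp only [h5, mul_zero, sub_zero]
      exact mul_le_mul (pow_le_pow_left₀ (h0 x) (hr x hx) j)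
        ((hC ⟨x, rfl⟩).trans (le_abs_self C)) hx (by positivity)
    rcases le_or_gt (q x) s with hx' | hx'
    · have h5 : ψ x = 0 := by simp [ψ, hx']
      simp only [h5, mul_zero, sub_zero]
      nlinarith
    · have h5 : ψ x ≤ -h x := (min_le_right _ _).trans (max_le le_rfl (by linarith))
      have h6 : s ^ j ≤ q x ^ j := pow_le_pow_left₀ hs0.le hx'.le j
      have h7 : 0 < s ^ j := by positivity
      simp only
      nlinarith
  · rw [integral_sub (hi (by fun_prop)) (hi (by fun_prop)), integral_const_mul (s ^ j)]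
    rw [div_pow, div_mul_eq_mul_div, div_lt_iff₀ (by positivity)] at hj
    simp
    linarith

end Pool.Agent.Lib.MP_1a4aff_gt
end
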