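import Pool.Agent.Lib.MP_1a4aff_gt.Fn
import Pool.Agent.Lib.MP_1a4aff_gt.Util


/-!
The left invariant spaces of functions of bounded dimension span a finite dimensional space.
-/

open NormedSpace MeasureTheory Module Filter Topology

set_option linter.unusedSectionVars false

namespace Pool.Agent.Lib.MP_1a4aff_gt

variable {A : Type*} [NormedRing A] [NormedAlgebra ℝ A] [StarRing A] [CStarRing A]
  [CompleteSpace A] [FiniteDimensional ℝ A]

namespace Dat

variable {D : Dat A}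

/-- Left invariant subspaces. -/
def LInv (W : Submodule ℂ D.H) : Prop := ∀ y, ∀ f ∈ W, act y 1 f ∈ W

theorem inner_actL (y : grp D.g) (f g : D.H) :
    inner ℂ (act y⁻¹ 1 f) g = inner ℂ f (act y 1 g) := by
  simpa using inner_act y 1 f g

section

variable {W : Submodule ℂ D.H} [FiniteDimensional ℂ W] (hW : LInv W)

include hW

theorem der_mem (X : D.g) {f : D.H} (hf : f ∈ W) : der X 0 f ∈ W := by
  rw [← W.orthogonal_orthogonal]
  intro u hu
  refine (hasDerivAt_inner X 0 u f).unique ?_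
  simp only [smul_zero, ex_zero, fun t : ℝ => Submodule.inner_left_of_mem_orthogonal
    (hW (ex (t • X)) f hf) hu]
  exact hasDerivAt_const _ _

theorem norm_der_le {N : ℕ} (hN : finrank ℂ W ≤ N) (X : D.g) {f : D.H} (hf : f ∈ W) :
    ‖der X 0 f‖ ≤ N * (2 * ‖X‖) * ‖f‖ := by
  refine norm_rep_le (fun X Y : D.g => br Y X) (fun X Y => ?_) (fun Z => ?_)
    (fun X => (der X 0).restrict fun f => der_mem hW X) (fun X Y => ?_) (fun c X => ?_)
    (fun X f g => der_skew X 0 _ _) (fun X Y f => ?_) hN X ⟨f, hf⟩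
  · refine (norm_sub_le (Y * X : A) (X * Y)).trans ?_
    have h1 : ‖(Y * X : A)‖ ≤ ‖Y‖ * ‖X‖ := norm_mul_le _ _
    have h2 : ‖(X * Y : A)‖ ≤ ‖X‖ * ‖Y‖ := norm_mul_le _ _
    linarith
  · have h : Submodule.span ℝ {Z | ∃ X ∈ D.g, ∃ Y ∈ D.g, Z = X * Y - Y * X} ≤
        (Submodule.span ℝ {Z | ∃ X Y : D.g, Z = br Y X}).map D.g.subtype := by
      rw [Submodule.span_le]
      rintro _ ⟨X, hX, Y, hY, rfl⟩
      exact ⟨_, Submodule.subset_span ⟨⟨Y, hY⟩, ⟨X, hX⟩, rfl⟩, rfl⟩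
    obtain ⟨Z', h1, h2⟩ := h (D.perf Z.2)
    rwa [← Subtype.ext h2]
  · ext f
    simpa using LinearMap.congr_fun (der_add X 0 Y 0) f
  · ext f
    simpa using LinearMap.congr_fun (der_smul c X 0) f
  · exact Subtype.ext (der_comm rfl (by simp) _).symm

theorem eval_le {N : ℕ} (hN : finrank ℂ W ≤ N) {f : D.H} (hf : f ∈ W) (x : grp D.g) :
    ‖cm f x‖ ≤ N * ‖f‖ := by
  have : CompleteSpace W := FiniteDimensional.complete ℂ _
  let κ : W := (InnerProductSpace.toDual ℂ W).symm (LinearMap.toContinuousLinearMap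
    { toFun g := cm (g : D.H) 1
      map_add' _ _ := rfl
      map_smul' _ _ := rfl })
  have h1 : ∀ g ∈ W, ∀ x, cm g x = inner ℂ (act x⁻¹ 1 (κ : D.H)) g := fun g hg x => by
    rw [inner_actL]
    refine Eq.symm ((InnerProductSpace.toDual_symm_apply (x := (⟨_, hW x g hg⟩ : W))).trans ?_)
    simp
  let b := stdOrthonormalBasis ℂ W
  have h2 : ∀ x, ∑ i, ‖cm (b i : D.H) x‖ ^ 2 = ‖κ‖ ^ 2 := fun x => by
    rw [Submodule.coe_norm, ← norm_act x⁻¹ 1]
    refine Eq.trans ?_ (b.sum_sq_norm_inner_left ⟨_, hW x⁻¹ _ κ.2⟩)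
    simp only [h1 _ (b _).2 x]
    rfl
  have h3 : ‖κ‖ ^ 2 = finrank ℂ W := by
    have h4 : ∫ x, ∑ i, ‖cm (b i : D.H) x‖ ^ 2 ∂D.μ = ‖κ‖ ^ 2 := by simp [h2]
    rw [← h4, integral_finsetSum _ fun i _ => integrable (by fun_prop)]
    simp [← norm_sq_def, ← Submodule.coe_norm]
  have h4 : ‖κ‖ ≤ N := by
    refine (sq_le_sq₀ (norm_nonneg _) (by positivity)).1 (h3.trans_le ?_)
    exact_mod_cast hN.trans (Nat.le_self_pow two_ne_zero N)
  rw [h1 f hf]
  refine (norm_inner_le_norm _ _).trans ?_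
  rw [norm_act]
  exact mul_le_mul_of_nonneg_right h4 (norm_nonneg _)

end

/-- Functions of norm at most one in left invariant subspaces of dimension at most `N`. -/
def Fm (D : Dat A) (N : ℕ) : Set D.H :=
  {f | ∃ W : Submodule ℂ D.H, FiniteDimensional ℂ W ∧ finrank ℂ W ≤ N ∧ LInv W ∧ f ∈ W ∧ ‖f‖ ≤ 1}

variable {N : ℕ}

theorem Fm_act {f : D.H} (hf : f ∈ D.Fm N) (y : grp D.g) : act y 1 f ∈ D.Fm N :=
  let ⟨W, h1, h2, h3, h4, h5⟩ := hf
  ⟨W, h1, h2, h3, h3 y f h4, by rwa [norm_act]⟩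

theorem Fm_le {f : D.H} (hf : f ∈ D.Fm N) (x : grp D.g) : ‖cm f x‖ ≤ N := by
  obtain ⟨W, h1, h2, h3, h4, h5⟩ := hf
  exact (eval_le h3 h2 h4 x).trans (mul_le_of_le_one_right (by positivity) h5)

theorem Fm_lip {f : D.H} (hf : f ∈ D.Fm N) (X Y : D.g) (x : grp D.g) :
    ‖cm f (ex X * x) - cm f (ex Y * x)‖ ≤ 2 * N ^ 2 * ‖X - Y‖ := by
  obtain ⟨W, h1, h2, h3, h4, h5⟩ := hf
  have h6 : ∀ t : ℝ, HasDerivAt (fun s : ℝ => cm f (ex (s • X) * ex (s • -Y) * (ex Y * x)))
      (cm (der (ad (ex (t • X)) (X - Y)) 0 f) (ex (t • X) * ex (t • -Y) * (ex Y * x))) t :=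
    fun t => hasDerivAt_curve f (by
      convert ((hasDerivAt_exp_smul_const (X : A) t).fun_mul
        (hasDerivAt_exp_smul_const' (-Y : A) t)).mul_const (val (ex Y * x)) using 1
      · rfl
      · rw [coe_ad, val_mul _ (ex Y * x), val_mul (ex (t • X)), ← mul_assoc, ← mul_assoc,
          mul_assoc _ (val _⁻¹), val_inv_mul]
        simp only [val_ex, Submodule.coe_smul, Submodule.coe_neg, Submodule.coe_sub,
          Submodule.coe_zero]
        noncomm_ring)
  have h7 := norm_image_sub_le_of_norm_deriv_le_segment_01' (C := 2 * N ^ 2 * ‖X - Y‖)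
    (fun t _ => (h6 t).hasDerivWithinAt) fun t _ => by
      refine (eval_le h3 h2 (der_mem h3 _ h4) _).trans ?_
      have h8 := norm_der_le h3 h2 (ad (ex (t • X)) (X - Y)) h4
      have h9 : ‖ad (ex (t • X)) (X - Y)‖ = ‖X - Y‖ := norm_conj _ _
      rw [h9] at h8
      calc _ ≤ N * (N * (2 * ‖X - Y‖) * 1) := by
            gcongr
            exact h8.trans (by gcongr)
        _ = _ := by ring
  simpa [ex_neg, mul_assoc] using h7

theorem exists_words (N : ℕ) : ∃ w : List ℕ → grp D.g, ∀ x, ∀ ε > 0, ∃ l, ∀ f ∈ D.Fm N,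
    ‖cm f x - cm f (w l)‖ ≤ ε := by
  let u := TopologicalSpace.denseSeq D.g
  refine ⟨fun l => (l.map fun i => ex (u i)).prod, fun x => ?_⟩
  induction x using ind with
  | h1 => exact fun ε hε => ⟨[], fun f _ => by simpa using hε.le⟩
  | h X x ih =>
    intro ε hε
    obtain ⟨l, hl⟩ := ih (ε / 2) (by positivity)
    obtain ⟨i, hi⟩ := (TopologicalSpace.denseRange_denseSeq D.g).exists_dist_lt X
      (ε := ε / 2 / (2 * N ^ 2 + 1)) (by positivity)
    refine ⟨i :: l, fun f hf => ?_⟩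
    have h1 := hl _ (Fm_act hf (ex X))
    have h2 := Fm_lip hf X (u i) (l.map fun i => ex (u i)).prod
    rw [dist_eq_norm, lt_div_iff₀ (by positivity)] at hi
    simp only [cm_act, mul_one] at h1
    simp only [List.map_cons, List.prod_cons]
    refine (norm_sub_le_norm_sub_add_norm_sub _ _ _).trans ((add_le_add h1 h2).trans ?_)
    nlinarith [norm_nonneg (X - u i)]

theorem no_seq (f : ℕ → D.H) (h1 : ∀ j, f j ∈ D.Fm N ∧ ‖f j‖ = 1)
    (h2 : ∀ i j, i < j → inner ℂ (f i) (f j) = 0) : False := by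
  obtain ⟨w, hw⟩ := exists_words (D := D) N
  obtain ⟨a, -, φ, hφ, ha⟩ := (isCompact_univ_pi fun _ : List ℕ =>
    isCompact_closedBall (0 : ℂ) N).tendsto_subseq (x := fun j l => cm (f j) (w l))
    fun j l _ => by simpa using Fm_le (h1 j).1 _
  have h3 : ∀ x, Tendsto (fun j => ‖cm (f (φ j) - f (φ (j + 1))) x‖) atTop (𝓝 0) := fun x => by
    rw [Metric.tendsto_nhds]
    intro ε hε
    obtain ⟨l, hl⟩ := hw x (ε / 3) (by positivity)
    have h4 := tendsto_pi_nhds.1 ha l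
    have h5 := (h4.sub (h4.comp (tendsto_add_atTop_nat 1))).norm
    rw [sub_self, norm_zero] at h5
    filter_upwards [h5.eventually (gt_mem_nhds (show (0 : ℝ) < ε / 3 by positivity))] with j hj
    have h6 := hl _ (h1 (φ j)).1
    have h7 := hl _ (h1 (φ (j + 1))).1
    rw [norm_sub_rev] at h7
    rw [dist_zero_right, norm_norm, map_sub, ContinuousMap.sub_apply]
    refine (norm_sub_le_norm_sub_add_norm_sub _ (cm (f (φ j)) (w l)) _).trans_lt ?_
    have h8 := norm_sub_le_norm_sub_add_norm_sub (cm (f (φ j)) (w l))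
      (cm (f (φ (j + 1))) (w l)) (cm (f (φ (j + 1))) x)
    simp only [Function.comp_apply] at hj
    linarith
  have h4 := tendsto_integral_of_dominated_convergence (μ := D.μ) (f := fun _ => (0 : ℝ) ^ 2)
    (F := fun j x => ‖cm (f (φ j) - f (φ (j + 1))) x‖ ^ 2) (fun _ => ((N : ℝ) + N) ^ 2)
    (fun j => (integrable (by fun_prop)).1) (integrable_const _)
    (fun j => .of_forall fun x => by
      rw [norm_pow, norm_norm, map_sub, ContinuousMap.sub_apply]
      gcongr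
      exact (norm_sub_le _ _).trans (add_le_add (Fm_le (h1 _).1 _) (Fm_le (h1 _).1 _)))
    (.of_forall fun x => (h3 x).pow 2)
  simp only [← norm_sq_def, norm_sub_sq (𝕜 := ℂ), (h1 _).2,
    fun j => h2 _ _ (hφ (Nat.lt_succ_self j))] at h4
  simp at h4

theorem exists_bound (N : ℕ) : ∃ V : Submodule ℂ D.H, FiniteDimensional ℂ V ∧ LInv V ∧
    ∀ W : Submodule ℂ D.H, FiniteDimensional ℂ W → finrank ℂ W ≤ N → LInv W → W ≤ V := by
  by_contra h
  push Not at h
  have h1 : ∀ s : Finset D.H, (∀ f ∈ s, f ∈ D.Fm N ∧ ‖f‖ = 1) →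
      ∃ V : Submodule ℂ D.H, FiniteDimensional ℂ V ∧ LInv V ∧ ∀ f ∈ s, f ∈ V := fun s => by
    classical
    induction s using Finset.induction_on with
    | empty => exact fun _ => ⟨⊥, inferInstance, fun y f hf => by simp_all, by simp⟩
    | insert g s _ ih =>
      intro hs
      obtain ⟨V, h1, h2, h3⟩ := ih fun f hf => hs f (Finset.mem_insert_of_mem hf)
      obtain ⟨W, h4, -, h5, h6, -⟩ := (hs g (Finset.mem_insert_self _ _)).1
      refine ⟨V ⊔ W, inferInstance, fun y f hf => ?_, fun f hf => ?_⟩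
      · obtain ⟨a, ha, b, hb, rfl⟩ := Submodule.mem_sup.1 hf
        rw [map_add]
        exact Submodule.add_mem_sup (h2 y a ha) (h5 y b hb)
      · rcases Finset.mem_insert.1 hf with rfl | hf
        exacts [Submodule.mem_sup_right h6, Submodule.mem_sup_left (h3 f hf)]
  obtain ⟨f, hf, hf'⟩ := exists_seq_of_forall_finset_exists (fun f => f ∈ D.Fm N ∧ ‖f‖ = 1)
    (fun f g => inner ℂ f g = 0) fun s hs => by
      obtain ⟨V, h2, h3, h4⟩ := h1 s hs
      obtain ⟨W, h5, h6, h7, h8⟩ := h V h2 h3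
      obtain ⟨w, hw, hw'⟩ := SetLike.not_le_iff_exists.1 h8
      let Q : Module.End ℂ D.H := LinearMap.id - V.starProjection.toLinearMap
      have hQ : Q w ≠ 0 := fun h9 => hw' (by
        rw [sub_eq_zero.1 (show w - V.starProjection w = 0 from h9)]
        exact V.starProjection_apply_mem w)
      have h9 : ‖((‖Q w‖⁻¹ : ℝ) : ℂ) • Q w‖ = 1 := by
        simp [norm_smul, hQ]
      refine ⟨((‖Q w‖⁻¹ : ℝ) : ℂ) • Q w, ⟨⟨W.map Q, inferInstance,
        (Submodule.finrank_map_le _ _).trans h6, ?_,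
        Submodule.smul_mem _ _ (Submodule.mem_map_of_mem hw), h9.le⟩, h9⟩, fun g hg => ?_⟩
      · rintro y _ ⟨u, hu, rfl⟩
        refine ⟨_, h7 y u hu, ?_⟩
        change _ - _ = act y 1 (_ - _)
        rw [map_sub]
        exact congrArg _ (proj_comm (T := (act y 1).toLinearMap) (T' := (act y⁻¹ 1).toLinearMap)
          (inner_actL y) (h3 y) (h3 y⁻¹) u)
      · rw [inner_smul_right]
        exact mul_eq_zero_of_right _ (V.sub_starProjection_mem_orthogonal w g (h4 g hg))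
  exact no_seq f hf hf'

end Dat

end Pool.Agent.Lib.MP_1a4aff_gt
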