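import Pool.Agent.Lib.MP_1a4aff_gt.Grp

/-!
The pre-Hilbert space of smooth functions on the group, translations and invariant derivatives.
-/

open NormedSpace MeasureTheory
open scoped ContDiff ComplexConjugate

set_option linter.unusedSectionVars false

namespace Pool.Agent.Lib.MP_1a4aff_gt

variable {A : Type*} [NormedRing A] [NormedAlgebra ℝ A] [StarRing A] [CStarRing A]
  [CompleteSpace A] [FiniteDimensional ℝ A]

namespace Dat

variable (D : Dat A)

/-- Smooth functions on the group. -/
def sm : Subalgebra ℂ C(grp D.g, ℂ) where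
  carrier := {f | ∃ F : A → ℂ, ContDiff ℝ ∞ F ∧ ∀ x, f x = F (val x)}
  mul_mem' := fun ⟨F, hF, h⟩ ⟨G, hG, h'⟩ => ⟨_, hF.mul hG, fun x => by simp [h, h']⟩
  add_mem' := fun ⟨F, hF, h⟩ ⟨G, hG, h'⟩ => ⟨_, hF.add hG, fun x => by simp [h, h']⟩
  algebraMap_mem' c := ⟨fun _ => c, contDiff_const, fun x => by simp⟩

/-- Smooth functions with the `L²` inner product. -/
def H : Type _ := D.sm

noncomputable instance : CommRing D.H := inferInstanceAs (CommRing D.sm)

noncomputable instance : Algebra ℂ D.H := inferInstanceAs (Algebra ℂ D.sm)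

variable {D}

/-- The underlying continuous function. -/
noncomputable def cm : D.H →ₐ[ℂ] C(grp D.g, ℂ) := D.sm.val

theorem cm_injective : Function.Injective (cm : D.H → _) := Subtype.val_injective

theorem ext' {f g : D.H} (h : ∀ x, cm f x = cm g x) : f = g :=
  cm_injective (ContinuousMap.ext h)

/-- The map to `L²`. -/
noncomputable def toL : D.H →ₗ[ℂ] Lp ℂ 2 D.μ :=
  (ContinuousMap.toLp 2 D.μ ℂ).toLinearMap ∘ₗ cm.toLinearMap

noncomputable instance : NormedAddCommGroup D.H :=
  NormedAddCommGroup.induced D.H _ toL ((ContinuousMap.toLp_injective D.μ).comp cm_injective)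

noncomputable instance : InnerProductSpace ℂ D.H := InnerProductSpace.induced toL

theorem inner_def (f g : D.H) : inner ℂ f g = ∫ x, cm g x * conj (cm f x) ∂D.μ :=
  ContinuousMap.inner_toLp D.μ _ _

theorem integrable {E : Type*} [NormedAddCommGroup E] {f : grp D.g → E} (hf : Continuous f) :
    Integrable f D.μ :=
  hf.integrable_of_hasCompactSupport (HasCompactSupport.of_compactSpace f)

theorem re_inner_def (f g : D.H) :
    (inner ℂ f g).re = ∫ x, (cm g x * conj (cm f x)).re ∂D.μ := by
  rw [inner_def]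
  exact (integral_re (integrable (f := fun x => cm g x * conj (cm f x)) (by fun_prop))).symm

theorem norm_sq_def (f : D.H) : ‖f‖ ^ 2 = ∫ x, ‖cm f x‖ ^ 2 ∂D.μ := by
  rw [@norm_sq_eq_re_inner ℂ, RCLike.re_to_complex, re_inner_def]
  simp only [Complex.mul_conj, Complex.ofReal_re, Complex.normSq_eq_norm_sq]

/-- Restriction of a smooth function. -/
noncomputable def res (F : A → ℂ) (hF : ContDiff ℝ ∞ F) : D.H :=
  ⟨⟨fun x => F (val x), hF.continuous.comp continuous_val⟩, F, hF, fun _ => rfl⟩

@[simp] theorem cm_res (F : A → ℂ) (hF : ContDiff ℝ ∞ F) (x : grp D.g) :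
    cm (res F hF : D.H) x = F (val x) := rfl

theorem exists_res (f : D.H) : ∃ F hF, f = res F hF :=
  let ⟨F, hF, h⟩ := f.2
  ⟨F, hF, ext' h⟩

/-- Two sided translation. -/
noncomputable def act (y z : grp D.g) : D.H →ₐ[ℂ] D.H where
  toFun f := ⟨(cm f).comp ⟨fun x => y * x * z, by fun_prop⟩, by
    obtain ⟨F, hF, rfl⟩ := exists_res f
    exact ⟨fun a => F (val y * a * val z), hF.comp (by fun_prop), fun _ => rfl⟩⟩
  map_one' := rfl
  map_mul' _ _ := rfl
  map_zero' := rfl
  map_add' _ _ := rfl
  commutes' _ := rfl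

@[simp] theorem cm_act (y z : grp D.g) (f : D.H) (x : grp D.g) :
    cm (act y z f) x = cm f (y * x * z) := rfl

theorem inner_act (y z : grp D.g) (f g : D.H) :
    inner ℂ (act y⁻¹ z⁻¹ f) g = inner ℂ f (act y z g) := by
  rw [inner_def, inner_def, ← integral_mul_right_eq_self _ z, ← integral_mul_left_eq_self _ y]
  simp [mul_assoc]

theorem act_act (y z y' z' : grp D.g) (f : D.H) :
    act y z (act y' z' f) = act (y' * y) (z * z') f := ext' fun x => by simp [mul_assoc]

@[simp] theorem act_one (f : D.H) : act 1 1 f = f := ext' fun x => by simp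

theorem norm_act (y z : grp D.g) (f : D.H) : ‖act y z f‖ = ‖f‖ := by
  rw [@norm_eq_sqrt_re_inner ℂ, @norm_eq_sqrt_re_inner ℂ _ _ _ _ f, ← inner_act, act_act]
  simp

theorem contDiff_der {F : A → ℂ} (hF : ContDiff ℝ ∞ F) (X Y : A) :
    ContDiff ℝ ∞ fun z => fderiv ℝ F z (X * z + z * Y) :=
  (hF.fderiv_right (m := ∞) le_rfl).clm_apply (by fun_prop)

theorem hasDerivAt_res {F : A → ℂ} (hF : ContDiff ℝ ∞ F) {γ : ℝ → grp D.g} {u : A} {t : ℝ}
    (h : HasDerivAt (fun s => val (γ s)) u t) :
    HasDerivAt (fun s => cm (res F hF : D.H) (γ s)) (fderiv ℝ F (val (γ t)) u) t :=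
  (hF.differentiable (by simp) _).hasFDerivAt.comp_hasDerivAt t h

theorem deriv_res {F : A → ℂ} (hF : ContDiff ℝ ∞ F) (X Y : D.g) (x : grp D.g) :
    deriv (fun t : ℝ => cm (res F hF : D.H) (ex (t • X) * x * ex (t • Y))) 0 =
      fderiv ℝ F (val x) (X * val x + val x * Y) := by
  simpa using (hasDerivAt_res hF (hasDerivAt_flow X Y x 0)).deriv

/-- Derivative along the sum of a right invariant and a left invariant vector field. -/
noncomputable def der (X Y : D.g) : Module.End ℂ D.H where
  toFun f := ⟨⟨fun x => deriv (fun t : ℝ => cm f (ex (t • X) * x * ex (t • Y))) 0, by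
      obtain ⟨F, hF, rfl⟩ := exists_res f
      simp only [deriv_res]
      exact (contDiff_der hF X Y).continuous.comp continuous_val⟩, by
    obtain ⟨F, hF, rfl⟩ := exists_res f
    exact ⟨_, contDiff_der hF X Y, deriv_res hF X Y⟩⟩
  map_add' f g := by
    obtain ⟨F, hF, rfl⟩ := exists_res f
    obtain ⟨G, hG, rfl⟩ := exists_res g
    exact ext' fun x => deriv_fun_add
      (hasDerivAt_res hF (hasDerivAt_flow X Y x 0)).differentiableAt
      (hasDerivAt_res hG (hasDerivAt_flow X Y x 0)).differentiableAt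
  map_smul' c f := ext' fun x => deriv_const_mul_field c

theorem der_res {F : A → ℂ} (hF : ContDiff ℝ ∞ F) (X Y : D.g) :
    der X Y (res F hF) = res _ (contDiff_der hF X Y) := ext' (deriv_res hF X Y)

theorem cm_der {F : A → ℂ} (hF : ContDiff ℝ ∞ F) (X Y : D.g) (x : grp D.g) :
    cm (der X Y (res F hF)) x = fderiv ℝ F (val x) (X * val x + val x * Y) := deriv_res hF X Y x

theorem hasDerivAt_curve (f : D.H) {γ : ℝ → grp D.g} {t : ℝ} {X Y : D.g}
    (h : HasDerivAt (fun s => val (γ s)) (X * val (γ t) + val (γ t) * Y) t) :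
    HasDerivAt (fun s => cm f (γ s)) (cm (der X Y f) (γ t)) t := by
  obtain ⟨F, hF, rfl⟩ := exists_res f
  rw [der_res]
  exact hasDerivAt_res hF h

theorem hasDerivAt_der (f : D.H) (X Y : D.g) (x : grp D.g) :
    HasDerivAt (fun s : ℝ => cm f (ex (s • X) * x * ex (s • Y))) (cm (der X Y f) x) 0 := by
  simpa using hasDerivAt_curve f (hasDerivAt_flow X Y x 0)

theorem der_congr (f : D.H) {X Y X' Y' : D.g} {x : grp D.g}
    (h : X * val x + val x * Y = X' * val x + val x * Y') :
    cm (der X Y f) x = cm (der X' Y' f) x := by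
  obtain ⟨F, hF, rfl⟩ := exists_res f
  rw [cm_der, cm_der, h]

theorem der_add (X Y X' Y' : D.g) : der (X + X') (Y + Y') = der X Y + der X' Y' := by
  refine LinearMap.ext fun f => ext' fun x => ?_
  obtain ⟨F, hF, rfl⟩ := exists_res f
  rw [LinearMap.add_apply, map_add, ContinuousMap.add_apply, cm_der, cm_der, cm_der, ← map_add]
  congr 1
  push_cast
  noncomm_ring

theorem der_smul (c : ℝ) (X Y : D.g) : der (c • X) (c • Y) = (c : ℂ) • der X Y := by
  refine LinearMap.ext fun f => ext' fun x => ?_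
  obtain ⟨F, hF, rfl⟩ := exists_res f
  rw [LinearMap.smul_apply, map_smul, ContinuousMap.smul_apply, cm_der, cm_der]
  simp [mul_add]

theorem der_sum {ι : Type*} (s : Finset ι) (c : ι → ℝ) (Y : ι → D.g) :
    der 0 (∑ i ∈ s, c i • Y i) = ∑ i ∈ s, (c i : ℂ) • der 0 (Y i) := by
  refine LinearMap.ext fun f => ext' fun x => ?_
  obtain ⟨F, hF, rfl⟩ := exists_res f
  simp only [LinearMap.sum_apply, LinearMap.smul_apply, map_sum, map_smul,
    ContinuousMap.sum_apply, ContinuousMap.smul_apply, cm_der]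
  simp [Finset.mul_sum]

theorem der_mul (X Y : D.g) (f g : D.H) :
    der X Y (f * g) = der X Y f * g + f * der X Y g := ext' fun x =>
  (hasDerivAt_der (f * g) X Y x).unique <| by
    simpa using (hasDerivAt_der f X Y x).fun_mul (hasDerivAt_der g X Y x)

theorem der_pow (X Y : D.g) (f : D.H) (j : ℕ) :
    der X Y (f ^ (j + 1)) = ((j : ℂ) + 1) • (f ^ j * der X Y f) := by
  induction j with
  | zero => simp
  | succ j ih =>
    rw [pow_succ, der_mul, ih]
    refine ext' fun x => ?_
    simp
    ring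

theorem der_comm {X Y X' Y' Z W : D.g} (hZ : (Z : A) = X' * X - X * X')
    (hW : (W : A) = Y * Y' - Y' * Y) (f : D.H) :
    der X Y (der X' Y' f) - der X' Y' (der X Y f) = der Z W f := by
  obtain ⟨F, hF, rfl⟩ := exists_res f
  refine ext' fun x => ?_
  have h1 : ∀ (P Q u : A), fderiv ℝ (fun z => fderiv ℝ F z (P * z + z * Q)) (val x) u =
      fderiv ℝ F (val x) (P * u + u * Q) +
        fderiv ℝ (fderiv ℝ F) (val x) u (P * val x + val x * Q) := fun P Q u => by
    have h2 : HasFDerivAt (fun z => P * z + z * Q) _ (val x) :=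
      ((hasFDerivAt_id (𝕜 := ℝ) _).const_mul P).add ((hasFDerivAt_id (𝕜 := ℝ) _).mul_const' Q)
    rw [(((hF.fderiv_right (m := ∞) le_rfl).differentiable (by simp) _).hasFDerivAt.clm_apply
      h2).fderiv]
    simp
  simp only [der_res, map_sub, ContinuousMap.sub_apply, cm_res, h1]
  rw [(hF.contDiffAt.isSymmSndFDerivAt (by simp; exact WithTop.coe_le_coe.2 (le_top (a := (2 : ℕ∞))))).eq, add_sub_add_right_eq_sub, ← map_sub, hZ, hW]
  congr 1
  noncomm_ring

theorem act_der {y z : grp D.g} {X Y X' Y' : D.g} (hX : val y * X' = X * val y)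
    (hY : Y' * val z = val z * Y) (f : D.H) :
    act y z (der X Y f) = der X' Y' (act y z f) := ext' fun x => by
  refine HasDerivAt.unique ?_ (hasDerivAt_der (act y z f) X' Y' x)
  have h := hasDerivAt_curve f (γ := fun s => y * (ex (s • X') * x * ex (s • Y')) * z)
    (X := X) (Y := Y) (t := 0) (by
      convert ((hasDerivAt_flow X' Y' x 0).const_mul (val y)).mul_const (val z) using 1
      · rfl
      · simp only [zero_smul, ex_zero, one_mul, mul_one, val_mul, mul_add, add_mul]
        rw [← mul_assoc (val y), hX]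
        simp only [mul_assoc, hY])
  simpa using h

theorem hasDerivAt_inner (X Y : D.g) (g f : D.H) :
    HasDerivAt (fun t : ℝ => inner ℂ g (act (ex (t • X)) (ex (t • Y)) f))
      (inner ℂ g (der X Y f)) 0 := by
  have h := (hasDerivAt_integral_of_dominated_loc_of_deriv_le (μ := D.μ) (x₀ := (0 : ℝ))
    (F := fun t x => cm (act (ex (t • X)) (ex (t • Y)) f) x * conj (cm g x))
    (F' := fun t x => cm (act (ex (t • X)) (ex (t • Y)) (der X Y f)) x * conj (cm g x))
    (bound := fun _ => ‖cm (der X Y f)‖ * ‖cm g‖) Filter.univ_mem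
    (.of_forall fun t => (integrable (by fun_prop)).1) (integrable (by fun_prop))
    (integrable (by fun_prop)).1 (.of_forall fun x t _ => by
      rw [norm_mul, Complex.norm_conj]
      exact mul_le_mul ((cm (der X Y f)).norm_coe_le_norm (ex (t • X) * x * ex (t • Y)))
        ((cm g).norm_coe_le_norm x) (norm_nonneg _) (norm_nonneg _)) (integrable_const _)
    (.of_forall fun x t _ => (hasDerivAt_curve f (hasDerivAt_flow X Y x t)).mul_const _)).2
  simpa only [inner_def, zero_smul, ex_zero, act_one] using h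

theorem der_skew (X Y : D.g) (f g : D.H) :
    inner ℂ (der X Y f) g = -inner ℂ f (der X Y g) := by
  have h1 := (hasDerivAt_inner X Y g f).star
  have h2 := HasDerivAt.scomp (0 : ℝ) (by simpa using hasDerivAt_inner X Y f g)
    (hasDerivAt_neg (0 : ℝ))
  rw [← inner_conj_symm]
  refine h1.unique ?_
  convert h2 using 1
  · ext t
    simp only [Function.comp_apply, neg_smul, ex_neg]
    rw [← inner_act]
    exact inner_conj_symm _ _
  · simp

end Dat

end Pool.Agent.Lib.MP_1a4aff_gt
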