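import Pool.Agent.Lib.MP_1a4aff_gt.Defs

/-!
The group generated by the exponentials of a Lie algebra of skew operators.
-/

open NormedSpace MeasureTheory

set_option linter.unusedSectionVars false

namespace Pool.Agent.Lib.MP_1a4aff_gt

variable {A : Type*} [NormedRing A] [NormedAlgebra ℝ A] [StarRing A]

/-- A perfect Lie algebra of skew operators generating a compact group. -/
structure Dat (A : Type*) [NormedRing A] [NormedAlgebra ℝ A] [StarRing A] where
  g : Submodule ℝ A
  skew : ∀ X ∈ g, star X = -X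
  lie : ∀ X ∈ g, ∀ Y ∈ g, X * Y - Y * X ∈ g
  perf : g ≤ Submodule.span ℝ {Z | ∃ X ∈ g, ∃ Y ∈ g, Z = X * Y - Y * X}
  cpt : IsCompact (Set.range (val : grp g → A))

theorem exists_flow {V : Type*} [NormedAddCommGroup V] [NormedSpace ℝ V] [CompleteSpace V]
    (B : V →L[ℝ] V) (x : V) : ∃ Z : ℝ → V, Z 0 = x ∧ ∀ t, HasDerivAt Z (B (Z t)) t := by
  have h := fun t : ℝ => (hasDerivAt_exp_smul_const' B t).clm_apply (hasDerivAt_const t x)
  refine ⟨_, ?_, fun t => by simpa using h t⟩
  rw [zero_smul, exp_zero]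
  rfl

section

variable {𝔤 : Submodule ℝ A}

@[simp] theorem val_mul (x y : grp 𝔤) : val (x * y) = val x * val y := rfl

@[simp] theorem val_one : val (1 : grp 𝔤) = 1 := rfl

theorem val_inv (x : grp 𝔤) : val x⁻¹ = star (val x) := rfl

@[simp] theorem val_inv_mul (x : grp 𝔤) : val x⁻¹ * val x = 1 := by
  rw [← val_mul, inv_mul_cancel, val_one]

@[simp] theorem val_mul_inv (x : grp 𝔤) : val x * val x⁻¹ = 1 := by
  rw [← val_mul, mul_inv_cancel, val_one]

@[fun_prop] theorem continuous_val : Continuous (val : grp 𝔤 → A) :=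
  continuous_subtype_val.comp continuous_subtype_val

theorem val_injective : Function.Injective (val : grp 𝔤 → A) :=
  Subtype.val_injective.comp Subtype.val_injective

variable [CStarRing A] [CompleteSpace A]

theorem norm_conj (x : grp 𝔤) (X : A) : ‖val x * X * val x⁻¹‖ = ‖X‖ :=
  (CStarRing.norm_mul_coe_unitary _ _).trans (CStarRing.norm_coe_unitary_mul _ _)

theorem exp_neg_mul (X : A) : exp (-X) * exp X = 1 := by
  let +nondep : NormedAlgebra ℚ A := .restrictScalars ℚ ℝ _
  rw [← exp_add_of_commute (Commute.refl X).neg_left, neg_add_cancel, exp_zero]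

theorem exp_mul_neg (X : A) : exp X * exp (-X) = 1 := by
  simpa using exp_neg_mul (-X)

end

namespace Dat

variable [CStarRing A] [CompleteSpace A] [FiniteDimensional ℝ A] (D : Dat A)

instance : CompactSpace (grp D.g) :=
  ⟨(Topology.IsInducing.subtypeVal.comp Topology.IsInducing.subtypeVal).isCompact_iff.2
    (Set.image_univ ▸ D.cpt)⟩

instance : MeasurableSpace (grp D.g) := borel _

instance : BorelSpace (grp D.g) := ⟨rfl⟩

/-- Normalised Haar measure. -/
noncomputable def μ : Measure (grp D.g) := Measure.haarMeasure ⊤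

instance : D.μ.IsHaarMeasure := Measure.isHaarMeasure_haarMeasure _

instance : IsProbabilityMeasure D.μ := ⟨Measure.haarMeasure_self⟩

instance : D.μ.IsMulRightInvariant := ⟨fun g =>
  have := Measure.isProbabilityMeasure_map (μ := D.μ) (measurable_mul_const g).aemeasurable
  Measure.isHaarMeasure_eq_of_isProbabilityMeasure _ _⟩

variable {D}

/-- The exponential map. -/
noncomputable def ex (X : D.g) : grp D.g :=
  ⟨⟨exp (X : A), by
    let +nondep : NormedAlgebra ℚ A := .restrictScalars ℚ ℝ _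
    exact exp_mem_unitary_of_mem_skewAdjoint (D.skew _ X.2)⟩,
    Subgroup.subset_closure ⟨X, X.2, rfl⟩⟩

@[simp] theorem val_ex (X : D.g) : val (ex X) = exp (X : A) := rfl

@[simp] theorem ex_zero : ex (0 : D.g) = 1 := val_injective (by simp)

theorem ex_neg (X : D.g) : ex (-X) = (ex X)⁻¹ :=
  eq_inv_of_mul_eq_one_left (val_injective (exp_neg_mul _))

theorem ind {p : grp D.g → Prop} (h1 : p 1) (h : ∀ X x, p x → p (ex X * x)) (x : grp D.g) :
    p x := by
  obtain ⟨x, hx⟩ := x
  induction hx using Subgroup.closure_induction_left with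
  | one => exact h1
  | mul_left y hy x hx ih =>
    obtain ⟨X, hX, hy⟩ := hy
    convert h ⟨X, hX⟩ _ ih using 1
    exact val_injective (congrArg (· * (x : A)) hy)
  | inv_mul_cancel y hy x hx ih =>
    obtain ⟨X, hX, hy⟩ := hy
    convert h (-⟨X, hX⟩) _ ih using 1
    rw [ex_neg]
    exact val_injective (congrArg (fun z => star z * (x : A)) hy)

/-- The bracket. -/
def br (X Y : D.g) : D.g := ⟨X * Y - Y * X, D.lie _ X.2 _ Y.2⟩

@[simp] theorem coe_br (X Y : D.g) : (br X Y : A) = X * Y - Y * X := rfl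

theorem exp_conj_mem (Y X : D.g) : exp (Y : A) * X * exp (-(Y : A)) ∈ D.g := by
  let B : D.g →L[ℝ] D.g := LinearMap.toContinuousLinearMap
    { toFun := br Y
      map_add' Z W := Subtype.ext (by simp [mul_add, add_mul]; abel)
      map_smul' c Z := Subtype.ext (by simp [smul_sub]) }
  have hA : ∀ Z, (B Z : A) = Y * Z - Z * Y := fun _ => rfl
  have : CompleteSpace D.g := FiniteDimensional.complete ℝ _
  obtain ⟨Z, hZ0, hZ⟩ : ∃ Z : ℝ → D.g, Z 0 = X ∧ ∀ t, HasDerivAt Z (B (Z t)) t :=
    exists_flow B X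
  have h1 : ∀ t : ℝ, HasDerivAt (fun s : ℝ =>
      exp (s • -(Y : A)) * Z s * exp (s • (Y : A))) 0 t := fun t => by
    have h2 : HasDerivAt (fun s => (Z s : A)) (B (Z t)) t :=
      D.g.subtypeL.hasFDerivAt.comp_hasDerivAt t (hZ t)
    convert ((hasDerivAt_exp_smul_const (-(Y : A)) t).fun_mul h2).fun_mul
      (hasDerivAt_exp_smul_const' (Y : A) t) using 1
    rw [hA]
    noncomm_ring
  have h2 := is_const_of_deriv_eq_zero (fun t => (h1 t).differentiableAt)
    (fun t => (h1 t).deriv) 1 0
  simp only [one_smul, zero_smul, exp_zero, one_mul, mul_one, hZ0] at h2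
  rw [← h2, ← mul_assoc, ← mul_assoc, exp_mul_neg, one_mul, mul_assoc, exp_mul_neg, mul_one]
  exact Subtype.prop _

theorem conj_mem (y : grp D.g) : ∀ X ∈ D.g, val y * X * val y⁻¹ ∈ D.g := by
  induction y using ind with
  | h1 => simp
  | h Y x ih =>
    intro X hX
    convert exp_conj_mem Y ⟨_, ih X hX⟩ using 1
    simp [← ex_neg, mul_assoc]

/-- The adjoint action. -/
noncomputable def ad (y : grp D.g) (X : D.g) : D.g := ⟨_, conj_mem y X X.2⟩

@[simp] theorem coe_ad (y : grp D.g) (X : D.g) : (ad y X : A) = val y * X * val y⁻¹ := rfl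

theorem hasDerivAt_flow (X Y : D.g) (x : grp D.g) (t : ℝ) :
    HasDerivAt (fun s : ℝ => val (ex (s • X) * x * ex (s • Y)))
      (X * val (ex (t • X) * x * ex (t • Y)) + val (ex (t • X) * x * ex (t • Y)) * Y) t := by
  convert ((hasDerivAt_exp_smul_const' (X : A) t).mul_const (val x)).mul
    (hasDerivAt_exp_smul_const (Y : A) t) using 1
  · rfl
  · simp [mul_assoc]

end Dat

end Pool.Agent.Lib.MP_1a4aff_gt
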