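import Pool.Agent.Lib.MP_1a4aff_gt.Orb

/-!
The family of Laplacians and two sided bounds for the cometric.
-/

open NormedSpace MeasureTheory Module Filter Topology
open scoped Matrix ComplexConjugate

set_option linter.unusedSectionVars false

namespace Pool.Agent.Lib.MP_1a4aff_gt

variable {A E : Type*} [NormedRing A] [NormedAlgebra ℝ A] [StarRing A] [CStarRing A]
  [CompleteSpace A] [FiniteDimensional ℝ A] [NormedAddCommGroup E] [InnerProductSpace ℝ E]
  [FiniteDimensional ℝ E] [Module A E] [IsScalarTower ℝ A E] {d : ℕ}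

namespace Orb

open Dat

variable (O : Orb A E d)

/-- The Laplacian of a cometric. -/
noncomputable def lap (B : Matrix (Fin d) (Fin d) ℝ) : Module.End ℂ O.H :=
  ∑ s : Fin d × Fin d, (B s.1 s.2 : ℂ) • -(der 0 (O.e s.1) * der 0 (O.e s.2))

/-- Invariant symmetric matrices. -/
def adm : Set (Matrix (Fin d) (Fin d) ℝ) :=
  {B | B.IsHermitian ∧ ∀ k, val k • O.v = O.v → ∀ T : Matrix (Fin d) (Fin d) ℝ,
    (∀ j, ad k (O.e j) = ∑ i, T i j • O.e i) → T * B * Tᵀ = B}

theorem exists_T {k : grp O.g} (hk : val k • O.v = O.v) :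
    ∃ T : Matrix (Fin d) (Fin d) ℝ, ∀ j, ad k (O.e j) = ∑ i, T i j • O.e i := by
  choose c hc using fun j => (Submodule.mem_span_range_iff_exists_fun ℝ).1 (O.red k hk j)
  exact ⟨fun i j => c j i, fun j => Subtype.ext (by simp [hc])⟩

theorem smul_T {k : grp O.g} (hk : val k • O.v = O.v) {T : Matrix (Fin d) (Fin d) ℝ}
    (hT : ∀ j, ad k (O.e j) = ∑ i, T i j • O.e i) (j : Fin d) :
    val k • (O.e j : A) • O.v = ∑ i, T i j • (O.e i : A) • O.v := by
  have h := congrArg (fun X : O.g => (X : A) • val k • O.v) (hT j)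
  simp only [coe_ad, smul_smul, mul_assoc, val_inv_mul, mul_one] at h
  rw [smul_smul, h]
  simp [Finset.sum_smul, mul_smul, hk]

theorem lap_eq (B : Matrix (Fin d) (Fin d) ℝ) :
    O.lap B = -∑ i, ∑ j, (B i j : ℂ) • (der 0 (O.e i) * der 0 (O.e j)) := by
  simp [lap, Fintype.sum_prod_type]

theorem inner_lap (B : Matrix (Fin d) (Fin d) ℝ) (f g : O.H) : inner ℂ f (O.lap B g) =
    ∑ i, ∑ j, B i j * inner ℂ (der 0 (O.e i) f) (der 0 (O.e j) g) := by
  simp [lap_eq, inner_sum, inner_smul_right, der_skew 0 _ f, -Complex.coe_smul]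

theorem re_inner_lap (B : Matrix (Fin d) (Fin d) ℝ) (f : O.H) : (inner ℂ f (O.lap B f)).re =
    ∑ i, ∑ j, B i j * (inner ℂ (der 0 (O.e i) f) (der 0 (O.e j) f)).re := by
  simp [inner_lap]

theorem lap_symm {B : Matrix (Fin d) (Fin d) ℝ} (hB : B.IsHermitian) :
    (O.lap B).IsSymmetric := fun f g => by
  rw [← inner_conj_symm, inner_lap, inner_lap, Finset.sum_comm]
  simp only [map_sum, map_mul, Complex.conj_ofReal, inner_conj_symm]
  refine Finset.sum_congr rfl fun i _ => Finset.sum_congr rfl fun j _ => ?_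
  rw [← hB.apply i j, star_trivial]

theorem lap_act (B : Matrix (Fin d) (Fin d) ℝ) (y : grp O.g) (f : O.H) :
    O.lap B (act y 1 f) = act y 1 (O.lap B f) := by
  have h : ∀ (Y : O.g) f, act y 1 (der 0 Y f) = der 0 Y (act y 1 f) := fun Y f =>
    act_der (by simp) (by simp) f
  simp [lap_eq, h, -Complex.coe_smul]

theorem lap_mem {B : Matrix (Fin d) (Fin d) ℝ} (hB : B ∈ O.adm) (f : O.H) (hf : f ∈ O.H0) :
    O.lap B f ∈ O.H0 := mem_H0.2 fun k hk => by
  obtain ⟨T, hT⟩ := O.exists_T hk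
  have h : ∀ (Y : O.g) f, act 1 k (der 0 Y f) = der 0 (ad k Y) (act 1 k f) := fun Y f =>
    act_der (by simp) (by simp [mul_assoc]) f
  have h1 := sum_conj B T fun i => der 0 (O.e i)
  rw [hB.2 k hk T hT] at h1
  simp only [← der_sum, ← hT] at h1
  conv_rhs => rw [lap_eq, ← h1]
  simp [lap_eq, h, mem_H0.1 hf k hk, -Complex.coe_smul]

/-- The family of Laplacians. -/
noncomputable def fam : Fam O.H (Fin d × Fin d) (Matrix (Fin d) (Fin d) ℝ) where
  t s := -(der 0 (O.e s.1) * der 0 (O.e s.2))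
  a B s := B s.1 s.2
  adm := O.adm
  H0 := O.H0.toSubmodule
  U := O.U
  symm _ hB := O.lap_symm hB.1
  fin _ := inferInstance
  le := O.U_le
  inv N B hB := O.map_U (O.lap_act B) (O.lap_mem hB) N
  mono := O.U_mono
  dense _ hg h := O.dense hg h

/-- An auxiliary operator built from right invariant vector fields. -/
noncomputable def aux : Module.End ℂ O.H := -∑ i, der (O.e i) 0 * der (O.e i) 0

theorem inner_aux (f g : O.H) :
    inner ℂ f (O.aux g) = ∑ i, inner ℂ (der (O.e i) 0 f) (der (O.e i) 0 g) := by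
  simp [aux, inner_sum, der_skew _ 0 f]

theorem aux_symm : O.aux.IsSymmetric := fun f g => by
  rw [← inner_conj_symm, inner_aux, inner_aux]
  simp

theorem aux_mem (N : ℕ) (f : O.H) (hf : f ∈ O.U N) : O.aux f ∈ O.U N := by
  simp only [aux, LinearMap.neg_apply, LinearMap.sum_apply, Module.End.mul_apply]
  exact neg_mem (sum_mem fun i _ => der_mem (O.linv_U N) _ (der_mem (O.linv_U N) _ hf))

theorem lap_aux (B : Matrix (Fin d) (Fin d) ℝ) (f : O.H) :
    O.lap B (O.aux f) = O.aux (O.lap B f) := by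
  have h0 : der (0 : O.g) 0 = 0 := by simpa using der_smul 0 (0 : O.g) 0
  have h : ∀ X Y : O.g, Commute (der 0 Y) (der X 0) := fun X Y => LinearMap.ext fun f => by
    have := der_comm (X := 0) (Y := Y) (X' := X) (Y' := 0) (Z := 0) (W := 0) (by simp) (by simp) f
    rwa [h0, LinearMap.zero_apply, sub_eq_zero] at this
  have h1 : Commute (O.lap B) O.aux := Commute.sum_left _ _ _ fun s _ =>
    (Commute.neg_right (Commute.sum_right _ _ _ fun i _ =>
      (((h _ _).mul_right (h _ _)).mul_left ((h _ _).mul_right (h _ _))).neg_left)).smul_left _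
  exact LinearMap.congr_fun h1 f

theorem posDef_gram : (Matrix.gram ℝ fun i => (O.e i : A) • O.v).PosDef :=
  Matrix.posDef_gram_of_linearIndependent O.li

theorem exists_left_le (X : O.g) : ∃ C, 0 ≤ C ∧ ∀ f ∈ O.H0,
    ‖der X 0 f‖ ^ 2 ≤ C * ∑ j, ‖der 0 (O.e j) f‖ ^ 2 := by
  obtain ⟨γ, hγ, h⟩ := exists_lower O.posDef_gram
  refine ⟨(‖O.ev‖ * ‖X‖) ^ 2 / γ, by positivity, fun f hf => ?_⟩
  simp only [norm_sq_def]
  rw [← integral_finsetSum _ fun i _ => integrable (by fun_prop), ← integral_const_mul]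
  refine integral_mono (integrable (by fun_prop)) (integrable (by fun_prop)) fun x => ?_
  obtain ⟨c, hc⟩ := (Submodule.mem_span_range_iff_exists_fun ℝ).1 (O.sp _ (ad x⁻¹ X).2)
  have h1 : cm (der X 0 f) x = ∑ j, c j * cm (der 0 (O.e j) f) x := by
    have h2 := der_add 0 (∑ j, c j • O.e j) 0 (ad x⁻¹ X - ∑ j, c j • O.e j)
    rw [add_zero, add_sub_cancel, der_sum] at h2
    rw [der_congr f (X' := 0) (Y' := ad x⁻¹ X) (by simp [← mul_assoc]), h2, LinearMap.add_apply,
      der_eq_zero (by simp [-coe_ad, sub_smul, ← hc, Finset.sum_smul]) hf]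
    simp only [add_zero, LinearMap.sum_apply, LinearMap.smul_apply, map_sum, map_smul,
      ContinuousMap.sum_apply, ContinuousMap.smul_apply, smul_eq_mul]
  have h2 : γ * ∑ j, c j ^ 2 ≤ (‖O.ev‖ * ‖X‖) ^ 2 := by
    have h3 := h.dotProduct_mulVec_nonneg c
    rw [Matrix.sub_mulVec, dotProduct_sub, Matrix.star_dotProduct_gram_mulVec, hc,
      real_inner_self_eq_norm_sq] at h3
    have h4 : ‖(ad x⁻¹ X : A) • O.v‖ ≤ ‖O.ev‖ * ‖X‖ :=
      (O.ev.le_opNorm _).trans_eq (congrArg _ (norm_conj _ _))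
    have h5 := pow_le_pow_left₀ (norm_nonneg _) h4 2
    rw [Matrix.smul_mulVec, Matrix.one_mulVec, dotProduct_smul, smul_eq_mul, star_trivial,
      dotProduct] at h3
    simp only [← pow_two] at h3
    linarith
  simp only
  rw [h1]
  refine (pow_le_pow_left₀ (norm_nonneg _) (norm_sum_le _ _) 2).trans ?_
  simp only [norm_mul, Complex.norm_real]
  refine (Finset.sum_mul_sq_le_sq_mul_sq _ _ _).trans ?_
  gcongr
  simpa [le_div_iff₀' hγ] using h2

theorem exists_aux_le {B : Matrix (Fin d) (Fin d) ℝ} (hB : B.PosDef) : ∃ a : ℝ, 0 < a ∧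
    ∀ f ∈ O.H0, a * (inner ℂ f (O.aux f)).re ≤ (inner ℂ f (O.lap B f)).re := by
  obtain ⟨a, ha, h⟩ := exists_lower hB
  choose C hC hC' using fun i => O.exists_left_le (O.e i)
  have h0 : 0 < ∑ i, C i + 1 := by
    have := Finset.sum_nonneg fun i (_ : i ∈ Finset.univ) => hC i
    positivity
  refine ⟨a / (∑ i, C i + 1), by positivity, fun f hf => ?_⟩
  have h1 := pair_lower h (posSemidef_re_inner fun i => der 0 (O.e i) f)
  have h2 := Finset.sum_le_sum fun i (_ : i ∈ Finset.univ) => hC' i f hf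
  have h3 : ∀ g : O.H, (inner ℂ g g).re = ‖g‖ ^ 2 := fun g => inner_self_eq_norm_sq (𝕜 := ℂ) g
  simp only [Matrix.of_apply, h3] at h1
  rw [re_inner_lap, inner_aux, Complex.re_sum, div_mul_eq_mul_div, div_le_iff₀ h0]
  simp only [h3]
  rw [← Finset.sum_mul] at h2
  have h4 : 0 ≤ ∑ j, ‖der 0 (O.e j) f‖ ^ 2 := by positivity
  calc _ ≤ a * ((∑ i, C i + 1) * ∑ j, ‖der 0 (O.e j) f‖ ^ 2) := by
        gcongr
        linarith
    _ = (a * ∑ j, ‖der 0 (O.e j) f‖ ^ 2) * (∑ i, C i + 1) := by ring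
    _ ≤ _ := by gcongr

theorem exists_trace_le (B0 : Matrix (Fin d) (Fin d) ℝ) : ∃ M : ℝ, ∀ B ∈ O.adm, B.PosSemidef →
    O.fam.Iso B B0 → ∑ i, B i i ≤ M := by
  obtain ⟨N, hN⟩ := O.exists_co_mem
  obtain ⟨γ, hγ, h⟩ := exists_lower O.posDef_gram
  let T := LinearMap.toContinuousLinearMap (O.lap B0 ∘ₗ (O.U N).subtype)
  let b := stdOrthonormalBasis ℝ E
  refine ⟨(∑ k, ‖T‖ * ‖O.co (b k)‖ ^ 2) / γ, fun B hB hB' hI => ?_⟩
  have h0 : ∀ (S : Module.End ℂ O.H) (f : O.H),
      (inner ℂ f (((((-1 : ℝ) : ℂ)) • S - ((-‖T‖ : ℝ) : ℂ) • 1) f)).re =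
        ‖T‖ * ‖f‖ ^ 2 - (inner ℂ f (S f)).re := fun S f => by
    simp [-Complex.coe_smul, pow_two]
    ring
  have h1 := hI.transfer hB (O.fam.good_U N) (L := ((-‖T‖ : ℝ) : ℂ) • 1)
    (LinearMap.IsSymmetric.smul (by simp) LinearMap.IsSymmetric.one)
    (fun f hf => Submodule.smul_mem _ _ hf) (fun q _ f _ => map_smul (O.fam.op q) _ f) (s := -1) (by simp)
    fun f hf => by
      rw [h0, sub_nonneg]
      refine (re_inner_le_norm (𝕜 := ℂ) _ _).trans ?_
      have h2 : ‖O.lap B0 f‖ ≤ ‖T‖ * ‖f‖ := T.le_opNorm ⟨f, hf⟩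
      calc ‖f‖ * ‖O.lap B0 f‖ ≤ ‖f‖ * (‖T‖ * ‖f‖) := by gcongr
        _ = _ := by ring
  have h2 : ∀ i j, ∑ k, (inner ℂ (der 0 (O.e i) (O.co (b k))) (der 0 (O.e j) (O.co (b k)))).re =
      inner ℝ ((O.e i : A) • O.v) ((O.e j : A) • O.v) := fun i j => by
    simp only [re_inner_def]
    rw [← integral_finsetSum _ fun i _ => integrable (by fun_prop)]
    simp only [cm_der_co, Submodule.coe_zero, zero_mul, zero_add, Complex.conj_ofReal,
      ← Complex.ofReal_mul, Complex.ofReal_re, mul_smul]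
    have h3 : ∀ x y : E, ∑ k, inner ℝ (b k) y * inner ℝ (b k) x = inner ℝ x y := fun x y => by
      rw [← b.sum_inner_mul_inner x y]
      exact Finset.sum_congr rfl fun k _ => by rw [mul_comm, real_inner_comm]
    simp [h3, O.inner_val]
  rw [le_div_iff₀' hγ]
  refine (pair_lower h hB').trans ?_
  simp only [Matrix.gram_apply, ← h2, Finset.sum_mul]
  rw [Finset.sum_congr rfl fun i _ => Finset.sum_comm, Finset.sum_comm]
  refine Finset.sum_le_sum fun k _ => ?_
  have h3 := h1 _ (hN (b k))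
  rw [h0, sub_nonneg] at h3
  refine le_of_eq_of_le ?_ h3
  simp only [mul_comm _ (B _ _)]
  exact (O.re_inner_lap B _).symm

theorem re_inner_pow (p : O.H) (j : ℕ) (X Y X' Y' : O.g) :
    (inner ℂ (der X Y (p ^ (j + 1))) (der X' Y' (p ^ (j + 1)))).re = ((j : ℝ) + 1) ^ 2 *
      ∫ x, (‖cm p x‖ ^ 2) ^ j * (cm (der X' Y' p) x * conj (cm (der X Y p) x)).re ∂O.μ := by
  rw [re_inner_def, ← integral_const_mul]
  refine integral_congr_ae (.of_forall fun x => ?_)
  simp only [der_pow, map_smul, map_mul, map_pow, ContinuousMap.smul_apply,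
    ContinuousMap.mul_apply, ContinuousMap.pow_apply, smul_eq_mul, map_add, map_natCast, map_one]
  rw [← Complex.re_ofReal_mul, ← Complex.re_ofReal_mul, Complex.ofReal_pow, Complex.ofReal_pow,
    Complex.ofReal_pow, ← Complex.mul_conj']
  push_cast
  ring_nf

theorem posDef_of {B : Matrix (Fin d) (Fin d) ℝ} (hB : B ∈ O.adm) {a : ℝ} (ha : 0 < a)
    (h : ∀ N, ∀ f ∈ O.U N, a * (inner ℂ f (O.aux f)).re ≤ (inner ℂ f (O.lap B f)).re) :
    B.PosDef := by
  refine .of_dotProduct_mulVec_pos hB.1 fun ξ hξ => not_le.1 fun hneg => ?_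
  have hsk : ∀ X : O.g, inner ℝ O.v ((X : A) • O.v) = 0 := fun X => by
    have h1 := O.adj X O.v O.v
    rw [O.skew _ X.2, neg_smul, inner_neg_left, real_inner_comm] at h1
    linarith
  have hv : 0 < ‖O.v‖ := by
    obtain ⟨i, -⟩ := Function.ne_iff.1 hξ
    exact norm_pos_iff.2 fun h0 => O.li.ne_zero i (by simp [h0])
  obtain ⟨w, ε, hε, hw0, hw1, hw2⟩ : ∃ (w : E) (ε : ℝ), 0 < ε ∧ inner ℝ w O.v = 0 ∧
      2 * ‖w‖ ≤ ‖O.v‖ ∧ ∀ i, inner ℝ w ((O.e i : A) • O.v) = ε * ξ i := by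
    obtain ⟨η, hη⟩ := Matrix.vecMul_surjective_iff_isUnit.2 O.posDef_gram.isUnit ξ
    set w := ∑ j, η j • (O.e j : A) • O.v with hw
    refine ⟨(‖O.v‖ / (2 * ‖w‖ + 1)) • w, ‖O.v‖ / (2 * ‖w‖ + 1), by positivity, ?_, ?_, fun i => ?_⟩
    · rw [real_inner_comm]
      simp [hw, inner_smul_right, inner_sum, hsk]
    · rw [norm_smul, Real.norm_of_nonneg (by positivity), ← mul_assoc, ← mul_div_assoc,
        div_mul_eq_mul_div, div_le_iff₀ (by positivity)]
      nlinarith
    · rw [real_inner_smul_left, ← hη]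
      congr 1
      simp [hw, sum_inner, inner_smul_left, Matrix.vecMul, dotProduct]
  let p : O.H := O.co O.v * 1 + Complex.I • O.co w + algebraMap ℂ _ ((‖O.v‖ ^ 2 : ℝ) : ℂ)
  have hp : p ∈ O.Rep := add_mem (add_mem (mul_mem (O.co_mem _) (one_mem _))
    (O.Rep.smul_mem (O.co_mem _) _)) (O.Rep.algebraMap_mem _)
  have hp1 : ∀ x, ‖cm p x‖ ^ 2 = (inner ℝ O.v (val x • O.v) + ‖O.v‖ ^ 2) ^ 2 +
      inner ℝ w (val x • O.v) ^ 2 := fun x => by
    rw [Complex.sq_norm, Complex.normSq_apply]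
    simp [p, pow_two]
  have hp2 : ∀ X Y x, cm (der X Y p) x = (inner ℝ O.v ((X * val x + val x * Y) • O.v) : ℝ) +
      Complex.I * (inner ℝ w ((X * val x + val x * Y) • O.v) : ℝ) := fun X Y x => by
    have h1 : der X Y (1 : O.H) = 0 := by simpa using der_mul X Y 1 1
    simp only [p, mul_one, map_add, map_smul, Algebra.algebraMap_eq_smul_one, h1, smul_zero,
      add_zero, ContinuousMap.add_apply, ContinuousMap.smul_apply, cm_der_co, smul_eq_mul]
  obtain ⟨j, hj⟩ := exists_integral_neg O.μ (q := fun x => ‖cm p x‖ ^ 2) (h := fun x =>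
    ∑ i, ∑ k, B i k * (cm (der 0 (O.e k) p) x * conj (cm (der 0 (O.e i) p) x)).re -
      a * ∑ i, (cm (der (O.e i) 0 p) x * conj (cm (der (O.e i) 0 p) x)).re)
    (by fun_prop) (by fun_prop) (fun x => by positivity) (x0 := 1) (by
      simp only [hp1, val_one, one_smul, real_inner_self_eq_norm_sq]
      positivity) fun x hx => by
    have hx' : val x • O.v = O.v := by
      simp only [hp1, val_one, one_smul, real_inner_self_eq_norm_sq, hw0] at hx
      have h1 : ‖val x • O.v‖ ^ 2 = ‖O.v‖ ^ 2 := by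
        rw [← real_inner_self_eq_norm_sq, O.inner_val, real_inner_self_eq_norm_sq]
      have h2 := norm_sub_sq_real (val x • O.v) O.v
      have h3 := abs_real_inner_le_norm w (val x • O.v - O.v)
      rw [inner_sub_right, hw0, sub_zero] at h3
      have h4 := pow_le_pow_left₀ (abs_nonneg _) h3 2
      have h5 := pow_le_pow_left₀ (by positivity) hw1 2
      have h6 := norm_sub_le (val x • O.v) O.v
      rw [sq_abs, mul_pow] at h4
      rw [real_inner_comm, h1] at h2
      rw [(sq_eq_sq₀ (norm_nonneg _) (norm_nonneg _)).1 h1] at h6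
      have h7 := pow_le_pow_left₀ (norm_nonneg _) h6 2
      rw [← sub_eq_zero, ← norm_eq_zero, ← pow_eq_zero_iff two_ne_zero]
      have h9 := sq_nonneg ‖val x • O.v - O.v‖
      generalize ‖val x • O.v - O.v‖ ^ 2 = δ at *
      have h8 : 0 < ‖O.v‖ ^ 2 := by positivity
      have h10 : inner ℝ O.v (val x • O.v) = ‖O.v‖ ^ 2 - δ / 2 := by linarith
      rw [h10] at hx
      have h11 : δ ≤ 4 * ‖O.v‖ ^ 2 := by linarith
      have h12 : 4 * ‖w‖ ^ 2 ≤ ‖O.v‖ ^ 2 := by linarith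
      have h13 : ‖O.v‖ ^ 2 * δ ≤ 0 := by
        nlinarith [mul_le_mul_of_nonneg_right h11 h9, mul_le_mul_of_nonneg_right h12 h9]
      exact le_antisymm (nonpos_of_mul_nonpos_right h13 h8) h9
    obtain ⟨T, hT⟩ := O.exists_T hx'
    have h1 : ∀ i, cm (der 0 (O.e i) p) x = Complex.I * (∑ l, T l i * (ε * ξ l) : ℝ) :=
      fun i => by
        rw [hp2]
        simp [mul_smul, O.smul_T hx' hT, inner_sum, inner_smul_right, hsk, hw2]
    have h2 : ∀ i, cm (der (O.e i) 0 p) x = Complex.I * ((ε * ξ i : ℝ) : ℂ) := fun i => by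
      rw [hp2]
      simp [mul_smul, hx', hsk, hw2]
    have h3 := sum_conj B T fun l => ((ε * ξ l : ℝ) : ℂ)
    rw [hB.2 x hx' T hT] at h3
    simp only [smul_eq_mul] at h3
    norm_cast at h3
    have h4 : ∀ s t : ℝ, (Complex.I * s * conj (Complex.I * t)).re = t * s := fun s t => by
      simp [mul_comm]
    simp only [h1, h2, h4, h3]
    have h5 : ∑ k, ∑ l, B k l * (ε * ξ k * (ε * ξ l)) = ε ^ 2 * (star ξ ⬝ᵥ B *ᵥ ξ) := by
      simp only [dotProduct, Matrix.mulVec, Finset.mul_sum, star_trivial]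
      exact Finset.sum_congr rfl fun k _ => Finset.sum_congr rfl fun l _ => by ring
    obtain ⟨i, hi⟩ := Function.ne_iff.1 hξ
    have h6 : 0 < ∑ k, ε * ξ k * (ε * ξ k) := Finset.sum_pos' (fun k _ => mul_self_nonneg _)
      ⟨i, Finset.mem_univ _, mul_self_pos.2 (mul_ne_zero hε.ne' hi)⟩
    rw [h5]
    nlinarith [mul_pos ha h6, mul_nonneg (sq_nonneg ε) (neg_nonneg.2 hneg)]
  obtain ⟨N, hN⟩ := O.mem_Rep.1 (pow_mem hp (j + 1))
  have h1 := h N _ hN
  rw [re_inner_lap, inner_aux, Complex.re_sum] at h1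
  simp only [re_inner_pow] at h1
  simp only [mul_sub, Finset.mul_sum] at hj
  rw [integral_sub (integrable (by fun_prop)) (integrable (by fun_prop)),
    integral_finsetSum _ fun i _ => integrable (by fun_prop),
    integral_finsetSum _ fun i _ => integrable (by fun_prop),
    Finset.sum_congr rfl fun i _ => integral_finsetSum _ fun k _ => integrable (by fun_prop)] at hj
  simp only [mul_left_comm _ (B _ _), mul_left_comm _ a, integral_const_mul] at hj
  simp only [mul_left_comm (B _ _), ← Finset.mul_sum, mul_left_comm a] at h1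
  rw [← Finset.mul_sum] at hj
  have h2 := le_of_mul_le_mul_left h1 (by positivity)
  linarith

end Orb

end Pool.Agent.Lib.MP_1a4aff_gt
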