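import Pool.Agent.Lib.MP_1a4aff_gt.Lap

/-!
Compactness of the set of invariant metrics with prescribed spectrum.
-/

open NormedSpace MeasureTheory Module Filter Topology
open scoped Matrix ContDiff

set_option linter.unusedSectionVars false

namespace Pool.Agent.Lib.MP_1a4aff_gt

variable {A E : Type*} [NormedRing A] [NormedAlgebra ℝ A] [StarRing A] [CStarRing A]
  [CompleteSpace A] [FiniteDimensional ℝ A] [NormedAddCommGroup E] [InnerProductSpace ℝ E]
  [FiniteDimensional ℝ E] [Module A E] [IsScalarTower ℝ A E] {d : ℕ}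

theorem inv_conj {B S : Matrix (Fin d) (Fin d) ℝ} (hB : B.PosDef) (h : S * B * Sᵀ = B) :
    Sᵀ * B⁻¹ * S = B⁻¹ := by
  have hd := (Matrix.isUnit_iff_isUnit_det _).1 hB.isUnit
  have h1 : S * (B * Sᵀ * B⁻¹) = 1 := by
    rw [← Matrix.mul_assoc, ← Matrix.mul_assoc, h, Matrix.mul_nonsing_inv _ hd]
  have h2 := congrArg (B⁻¹ * ·) (mul_eq_one_comm.1 h1)
  simpa only [← Matrix.mul_assoc, Matrix.nonsing_inv_mul _ hd, Matrix.one_mul, Matrix.mul_one]
    using h2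

namespace Orb

open Dat

variable (O : Orb A E d)

theorem spec_iff {B : Matrix (Fin d) (Fin d) ℝ} (hB : B ∈ O.adm) (m : ℝ → ℕ) :
    O.fam.Spec (fun l => if l.im = 0 then m l.re else 0) B ↔ ∀ l : ℝ,
      Module.rank ℂ (O.H0.toSubmodule ⊓ (O.lap B).eigenspace l : Submodule ℂ O.H) = m l := by
  refine ⟨fun h l => ?_, fun h => ⟨hB, fun l => ?_⟩⟩
  · obtain ⟨h1, h2⟩ := h.2 l
    have := O.fam.fin (if (l : ℂ).im = 0 then m (l : ℂ).re else 0)
    have : FiniteDimensional ℂ (O.H0.toSubmodule ⊓ (O.lap B).eigenspace l : Submodule ℂ O.H) :=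
      Submodule.finiteDimensional_of_le h1
    rw [← Module.finrank_eq_rank]
    exact congrArg Nat.cast (h2.trans (by simp))
  by_cases hl : l.im = 0
  · obtain ⟨l, rfl⟩ : ∃ r : ℝ, l = r := ⟨l.re, Complex.ext rfl hl⟩
    have h1 := Module.finrank_eq_of_rank_eq (h l)
    have h2 := Module.finite_of_rank_eq_nat (h l)
    simp only [Complex.ofReal_im, if_true, Complex.ofReal_re]
    refine ⟨le_U _ ⟨h2, h1.le, fun y f hf => ⟨act_mem_H0 y hf.1, ?_⟩, inf_le_left⟩, h1⟩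
    refine Module.End.mem_eigenspace_iff.2 ((O.lap_act B y f).trans ?_)
    rw [show O.lap B f = _ from Module.End.mem_eigenspace_iff.1 hf.2, map_smul]
  · have h1 : (O.fam.op B).eigenspace l = ⊥ := by
      by_contra h1
      exact hl (Complex.conj_eq_iff_im.1 ((O.lap_symm hB.1).conj_eigenvalue_eq_self h1))
    simp only [mul, hl, if_false]
    rw [h1, inf_bot_eq, finrank_bot]
    exact ⟨bot_le, rfl⟩

theorem isCompact_co (m : ℂ → ℕ) : IsCompact {B | B.PosDef ∧ O.fam.Spec m B} := by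
  rw [isCompact_iff_ultrafilter_le_nhds]
  intro 𝓤 h𝓤
  have h0 : ∀ᶠ B in 𝓤, B.PosDef ∧ O.fam.Spec m B := le_principal_iff.1 h𝓤
  obtain ⟨B0, hB0, hI⟩ : ∃ B0, (B0.PosDef ∧ O.fam.Spec m B0) ∧ ∀ᶠ B in 𝓤, O.fam.Iso B B0 := by
    obtain ⟨B1, -, h1⟩ := Fam.exists_iso 𝓤 (h0.mono fun _ h => h.2)
    obtain ⟨B0, h2, h3⟩ := (h0.and h1).exists
    exact ⟨B0, h2, h1.mono fun B h V hV l => (h V hV l).trans (h3 V hV l).symm⟩
  obtain ⟨M, hM⟩ := O.exists_trace_le B0
  obtain ⟨B, -, hB⟩ := (isCompact_univ_pi fun _ : Fin d => isCompact_univ_pi fun _ : Fin d =>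
    isCompact_Icc (a := -M) (b := M)).ultrafilter_le_nhds' 𝓤 (by
      filter_upwards [h0, hI] with B h1 h2 i _ j _
      exact abs_le.1 ((abs_le_trace h1.1.posSemidef i j).trans (hM B h1.2.1 h1.1.posSemidef h2)))
  have hc : IsClosed O.adm := by
    simp only [adm, Set.ofPred_and, Set.ofPred_forall]
    exact (isClosed_eq (by fun_prop) continuous_id).inter (isClosed_iInter fun k =>
      isClosed_iInter fun _ => isClosed_iInter fun T => isClosed_iInter fun _ =>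
        isClosed_eq (by fun_prop) continuous_id)
  have hB1 : B ∈ O.adm := hc.mem_of_tendsto (f := id) hB (h0.mono fun _ h => h.2.1)
  have hB2 : O.fam.Iso B B0 := Fam.iso_lim hB1 hB0.2.1
    ((show Continuous O.fam.a from continuous_pi fun s => Complex.continuous_ofReal.comp
      (continuous_id.matrix_elem s.1 s.2)).continuousAt.mono_left hB)
    ((h0.and hI).mono fun _ h => ⟨h.1.2.1, h.2⟩)
  refine ⟨B, ⟨?_, hB2.spec hB1 hB0.2⟩, hB⟩
  obtain ⟨a, ha, h⟩ := O.exists_aux_le hB0.1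
  have h1 : ∀ (S : Module.End ℂ O.H) (f : O.H),
      (inner ℂ f (((((1 : ℝ) : ℂ)) • S - (a : ℂ) • O.aux) f)).re =
        (inner ℂ f (S f)).re - a * (inner ℂ f (O.aux f)).re := fun S f => by
    simp [-Complex.coe_smul]
  refine O.posDef_of hB1 ha fun N f hf => ?_
  have h2 := hB2.transfer hB1 (O.fam.good_U N) (L := (a : ℂ) • O.aux)
    (LinearMap.IsSymmetric.smul (by simp) O.aux_symm)
    (fun f hf => Submodule.smul_mem _ _ (O.aux_mem N f hf))
    (fun q _ f _ => (map_smul (O.lap q) _ _).trans (congrArg _ (O.lap_aux q f))) (s := 1)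
    one_ne_zero (fun f hf => by rw [h1, sub_nonneg]; exact h f (O.U_le N hf)) f hf
  rwa [h1, sub_nonneg] at h2

theorem inv_mem_adm_iff {g : Matrix (Fin d) (Fin d) ℝ} (hg : g.PosDef) : g⁻¹ ∈ O.adm ↔
    ∀ k : grp O.g, val k • O.v = O.v → ∀ a b a' b' : Fin d → ℝ,
      val k • (∑ i, a i • (O.e i : A) • O.v) = ∑ i, a' i • (O.e i : A) • O.v →
      val k • (∑ i, b i • (O.e i : A) • O.v) = ∑ i, b' i • (O.e i : A) • O.v →
      a' ⬝ᵥ g *ᵥ b' = a ⬝ᵥ g *ᵥ b := by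
  have key : ∀ {k : grp O.g} (hk : val k • O.v = O.v) {T : Matrix (Fin d) (Fin d) ℝ}
      (hT : ∀ j, ad k (O.e j) = ∑ i, T i j • O.e i) (a : Fin d → ℝ),
      val k • (∑ i, a i • (O.e i : A) • O.v) = ∑ i, (T *ᵥ a) i • (O.e i : A) • O.v :=
    fun hk T hT a => by
      simp only [Finset.smul_sum, smul_comm (val _) (a _), O.smul_T hk hT, Matrix.mulVec,
        dotProduct, Finset.sum_smul, smul_smul (a _)]
      rw [Finset.sum_comm]
      simp only [mul_comm]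
  have key2 : ∀ (T : Matrix (Fin d) (Fin d) ℝ) a b,
      (T *ᵥ a) ⬝ᵥ g *ᵥ (T *ᵥ b) = a ⬝ᵥ (Tᵀ * g * T) *ᵥ b := fun T a b => by
    simp only [← Matrix.mulVec_mulVec, Matrix.dotProduct_mulVec a, Matrix.vecMul_transpose]
  refine ⟨fun h k hk a b a' b' ha hb => ?_, fun h => ⟨hg.inv.1, fun k hk T hT => ?_⟩⟩
  · obtain ⟨T, hT⟩ := O.exists_T hk
    have h1 := inv_conj hg.inv (h.2 k hk T hT)
    rw [Matrix.nonsing_inv_nonsing_inv _ ((Matrix.isUnit_iff_isUnit_det _).1 hg.isUnit)] at h1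
    rw [key hk hT] at ha hb
    rw [← funext (Fintype.linearIndependent_iffₛ.1 O.li _ _ ha),
      ← funext (Fintype.linearIndependent_iffₛ.1 O.li _ _ hb), key2, h1]
  · refine inv_conj (S := Tᵀ) hg (Matrix.ext fun i j => ?_)
    have h1 := h k hk (Pi.single i 1) (Pi.single j 1) _ _ (key hk hT _) (key hk hT _)
    rw [key2] at h1
    simpa using h1

theorem dir_eq {F : A → ℂ} (hF : ContDiff ℝ ∞ F) (X : O.g) :
    dir (X : A) F = fun z => fderiv ℝ F z ((0 : O.g) * z + z * X) := funext fun z => by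
  have h := (hF.differentiable (by simp) (z * exp ((0 : ℝ) • (X : A)))).hasFDerivAt.comp_hasDerivAt
    0 ((hasDerivAt_exp_smul_const (X : A) (0 : ℝ)).const_mul z)
  simpa [dir, Function.comp_def] using h.deriv

theorem rank_eq (B : Matrix (Fin d) (Fin d) ℝ) (l : ℝ) :
    Module.rank ℂ (Submodule.span ℂ {f : grp O.g → ℂ | ∃ F : A → ℂ, ContDiff ℝ ∞ F ∧
      (∀ x, f x = F (val x)) ∧ (∀ x y : grp O.g, val x • O.v = val y • O.v → f x = f y) ∧
      ∀ x : grp O.g, -∑ i, ∑ j, (B i j : ℂ) * dir (O.e i : A) (dir (O.e j : A) F) (val x) =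
        l * F (val x)}) =
    Module.rank ℂ (O.H0.toSubmodule ⊓ (O.lap B).eigenspace l : Submodule ℂ O.H) := by
  let c : O.H →ₗ[ℂ] (grp O.g → ℂ) := ContinuousMap.coeFnLinearMap ℂ ∘ₗ cm.toLinearMap
  have hc : Function.Injective c := fun f g h => ext' (congrFun h)
  have h1 : ∀ F (hF : ContDiff ℝ ∞ F) x, cm (O.lap B (res F hF)) x =
      -∑ i, ∑ j, (B i j : ℂ) * dir (O.e i : A) (dir (O.e j : A) F) (val x) := fun F hF x => by
    simp only [lap_eq, LinearMap.neg_apply, LinearMap.sum_apply, LinearMap.smul_apply,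
      Module.End.mul_apply, map_neg, map_sum, map_smul, ContinuousMap.neg_apply,
      ContinuousMap.sum_apply, ContinuousMap.smul_apply, smul_eq_mul, der_res, cm_res,
      O.dir_eq hF, O.dir_eq (contDiff_der hF _ _)]
  rw [(Submodule.equivMapOfInjective c hc
    (O.H0.toSubmodule ⊓ (O.lap B).eigenspace l)).rank_eq, ← Submodule.span_eq (Submodule.map _ _)]
  refine congrArg (fun S : Set (grp O.g → ℂ) => Module.rank ℂ (Submodule.span ℂ S))
    (Set.ext fun f => ⟨?_, ?_⟩)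
  · rintro ⟨F, hF, h2, h3, h4⟩
    obtain rfl := funext h2
    exact ⟨res F hF, ⟨h3, Module.End.mem_eigenspace_iff.2
      (ext' fun x => (h1 F hF x).trans (h4 x))⟩, rfl⟩
  · rintro ⟨f, ⟨h2, h3⟩, rfl⟩
    obtain ⟨F, hF, rfl⟩ := exists_res f
    exact ⟨F, hF, fun _ => rfl, h2, fun x => (h1 F hF x).symm.trans
      (congrArg (cm · x) (Module.End.mem_eigenspace_iff.1 h3))⟩

theorem isCompact_metric (m : ℝ → ℕ) : IsCompact {g : Matrix (Fin d) (Fin d) ℝ |
    (g.PosDef ∧ ∀ k : grp O.g, val k • O.v = O.v → ∀ a b a' b' : Fin d → ℝ,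
      val k • (∑ i, a i • (O.e i : A) • O.v) = ∑ i, a' i • (O.e i : A) • O.v →
      val k • (∑ i, b i • (O.e i : A) • O.v) = ∑ i, b' i • (O.e i : A) • O.v →
      a' ⬝ᵥ g *ᵥ b' = a ⬝ᵥ g *ᵥ b) ∧ ∀ l : ℝ,
    Module.rank ℂ (Submodule.span ℂ {f : grp O.g → ℂ | ∃ F : A → ℂ, ContDiff ℝ ∞ F ∧
      (∀ x, f x = F (val x)) ∧ (∀ x y : grp O.g, val x • O.v = val y • O.v → f x = f y) ∧
      ∀ x : grp O.g, -∑ i, ∑ j, (g⁻¹ i j : ℂ) * dir (O.e i : A) (dir (O.e j : A) F) (val x) =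
        l * F (val x)}) = m l} := by
  have hd : ∀ {B : Matrix (Fin d) (Fin d) ℝ}, B.PosDef → IsUnit B.det := fun hB =>
    (Matrix.isUnit_iff_isUnit_det _).1 hB.isUnit
  convert (O.isCompact_co fun l => if l.im = 0 then m l.re else 0).image_of_continuousOn
    (f := fun B => B⁻¹) fun B hB => (continuousAt_matrix_inv B (by
      rw [Ring.inverse_eq_inv']
      exact continuousAt_inv₀ (hd hB.1).ne_zero)).continuousWithinAt using 1
  simp only [rank_eq]
  refine Set.ext fun g => ⟨fun ⟨⟨h1, h2⟩, h3⟩ => ⟨g⁻¹, ⟨h1.inv, (O.spec_iff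
    ((O.inv_mem_adm_iff h1).2 h2) m).2 h3⟩, Matrix.nonsing_inv_nonsing_inv _ (hd h1)⟩, ?_⟩
  rintro ⟨B, ⟨h1, h2⟩, rfl⟩
  have h3 := Matrix.nonsing_inv_nonsing_inv _ (hd h1)
  refine ⟨⟨h1.inv, (O.inv_mem_adm_iff h1.inv).1 (h3.symm ▸ h2.1)⟩, ?_⟩
  rw [h3]
  exact (O.spec_iff h2.1 m).1 h2

end Orb

end Pool.Agent.Lib.MP_1a4aff_gt
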