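import Pool.Agent.Lib.MP_1a4aff_gt.Fin
import Pool.Agent.Lib.MP_1a4aff_gt.Util

/-!
Functions on an orbit, density of the functions of finite type, and the family of Laplacians.
-/

open NormedSpace MeasureTheory Module Filter Topology
open scoped Matrix ComplexConjugate

set_option linter.unusedSectionVars false

namespace Pool.Agent.Lib.MP_1a4aff_gt

/-- An orbit with a reductive complement. -/
structure Orb (A E : Type*) [NormedRing A] [NormedAlgebra ℝ A] [StarRing A]
    [NormedAddCommGroup E] [InnerProductSpace ℝ E] [Module A E] (d : ℕ) extends Dat A where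
  adj : ∀ (a : A) (x y : E), inner ℝ (star a • x) y = inner ℝ x (a • y)
  v : E
  e : Fin d → g
  li : LinearIndependent ℝ fun i => (e i : A) • v
  sp : ∀ X ∈ g, X • v ∈ Submodule.span ℝ (Set.range fun i => (e i : A) • v)
  red : ∀ k : grp g, val k • v = v → ∀ i,
    val k * e i * val k⁻¹ ∈ Submodule.span ℝ (Set.range fun i => (e i : A))

variable {A E : Type*} [NormedRing A] [NormedAlgebra ℝ A] [StarRing A] [CStarRing A]
  [CompleteSpace A] [FiniteDimensional ℝ A] [NormedAddCommGroup E] [InnerProductSpace ℝ E]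
  [FiniteDimensional ℝ E] [Module A E] [IsScalarTower ℝ A E] {d : ℕ}

namespace Orb

open Dat

variable (O : Orb A E d)

/-- Evaluation at the base vector. -/
noncomputable def ev : A →L[ℝ] E :=
  LinearMap.toContinuousLinearMap ((LinearMap.toSpanSingleton A E O.v).restrictScalars ℝ)

@[simp] theorem ev_apply (a : A) : O.ev a = a • O.v := rfl

theorem inner_val (x : grp O.g) (a b : E) : inner ℝ (val x • a) (val x • b) = inner ℝ a b := by
  rw [← O.adj, ← val_inv, smul_smul, val_inv_mul, one_smul]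

theorem ex_fix {Z : O.g} (h : (Z : A) • O.v = 0) : val (ex Z) • O.v = O.v := by
  have h1 : ∀ t : ℝ, HasDerivAt (fun s : ℝ => O.ev (exp (s • (Z : A)))) 0 t := fun t => by
    simpa [mul_smul, h, Function.comp_def] using
      O.ev.hasFDerivAt.comp_hasDerivAt t (hasDerivAt_exp_smul_const (Z : A) t)
  simpa using is_const_of_deriv_eq_zero (fun t => (h1 t).differentiableAt)
    (fun t => (h1 t).deriv) 1 0

/-- Functions on the orbit. -/
def H0 : Subalgebra ℂ O.H where
  carrier := {f | ∀ x y, val x • O.v = val y • O.v → cm f x = cm f y}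
  mul_mem' hf hg x y h := by simp [hf x y h, hg x y h]
  add_mem' hf hg x y h := by simp [hf x y h, hg x y h]
  algebraMap_mem' c x y h := by simp

variable {O}

theorem mem_H0 {f : O.H} : f ∈ O.H0 ↔ ∀ k, val k • O.v = O.v → act 1 k f = f := by
  refine ⟨fun h k hk => ext' fun x => h _ _ (by simp [mul_smul, hk]), fun h x y hxy => ?_⟩
  conv_lhs =>
    rw [← h (x⁻¹ * y) (by rw [val_mul, mul_smul, ← hxy, smul_smul, val_inv_mul, one_smul])]
  simp

theorem act_mem_H0 (y : grp O.g) {f : O.H} (hf : f ∈ O.H0) : act y 1 f ∈ O.H0 :=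
  fun x z h => hf _ _ (by simp [mul_smul, h])

theorem der_eq_zero {Z : O.g} (h : (Z : A) • O.v = 0) {f : O.H} (hf : f ∈ O.H0) :
    der 0 Z f = 0 := ext' fun x => by
  refine (hasDerivAt_der f 0 Z x).unique ?_
  have h1 : ∀ s : ℝ, cm f (ex (s • 0) * x * ex (s • Z)) = cm f x := fun s => hf _ _ (by
    rw [smul_zero, ex_zero, one_mul, val_mul, mul_smul, O.ex_fix (by simp [h])])
  simp only [h1]
  exact hasDerivAt_const _ _

variable (O)

/-- Linear functionals. -/
noncomputable def lin (w : E) : A →L[ℝ] ℂ := Complex.ofRealCLM ∘L innerSL ℝ w ∘L O.ev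

@[simp] theorem lin_apply (w : E) (a : A) : O.lin w a = (inner ℝ w (a • O.v) : ℝ) := rfl

/-- Coordinate functions. -/
noncomputable def co (w : E) : O.H := res (O.lin w) (O.lin w).contDiff

@[simp] theorem cm_co (w : E) (x : grp O.g) :
    cm (O.co w) x = (inner ℝ w (val x • O.v) : ℝ) := rfl

theorem cm_der_co (w : E) (X Y : O.g) (x : grp O.g) :
    cm (der X Y (O.co w)) x = (inner ℝ w ((X * val x + val x * Y) • O.v) : ℝ) := by
  rw [co, cm_der, ContinuousLinearMap.fderiv, lin_apply]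

/-- The sum of the left invariant spaces of dimension at most `N`. -/
noncomputable def U (N : ℕ) : Submodule ℂ O.H :=
  sSup {W | FiniteDimensional ℂ W ∧ finrank ℂ W ≤ N ∧ LInv W ∧ W ≤ O.H0.toSubmodule}

instance (N : ℕ) : FiniteDimensional ℂ (O.U N) :=
  let ⟨_, _, _, h⟩ := exists_bound (D := O.toDat) N
  Submodule.finiteDimensional_of_le (sSup_le fun W hW => h W hW.1 hW.2.1 hW.2.2.1)

variable {O} in
theorem le_U {N : ℕ} (W : Submodule ℂ O.H)
    (h : FiniteDimensional ℂ W ∧ finrank ℂ W ≤ N ∧ LInv W ∧ W ≤ O.H0.toSubmodule) : W ≤ O.U N :=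
  le_sSup h

theorem U_le (N : ℕ) : O.U N ≤ O.H0.toSubmodule := sSup_le fun _ hW => hW.2.2.2

theorem U_mono : Monotone O.U := fun _ _ h =>
  sSup_le_sSup fun _ hW => ⟨hW.1, hW.2.1.trans h, hW.2.2⟩

theorem linv_U (N : ℕ) : LInv (O.U N) := fun y _ hf =>
  (sSup_le fun _ hW f hf => le_sSup hW (hW.2.2.1 y f hf) :
    O.U N ≤ (O.U N).comap (act y 1).toLinearMap) hf

theorem map_U {T : Module.End ℂ O.H} (h1 : ∀ y f, T (act y 1 f) = act y 1 (T f))
    (h2 : ∀ f ∈ O.H0, T f ∈ O.H0) (N : ℕ) : ∀ f ∈ O.U N, T f ∈ O.U N := by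
  change O.U N ≤ (O.U N).comap T
  refine sSup_le fun _ ⟨h3, h4, h5, h6⟩ => Submodule.map_le_iff_le_comap.1 (le_sSup
    ⟨inferInstance, (Submodule.finrank_map_le _ _).trans h4, ?_, ?_⟩)
  · rintro y _ ⟨f, hf, rfl⟩
    exact ⟨_, h5 y f hf, h1 y f⟩
  · rintro _ ⟨f, hf, rfl⟩
    exact h2 f (h6 hf)

/-- Functions of finite type. -/
def Rep : Subalgebra ℂ O.H where
  carrier := {f | ∃ N, f ∈ O.U N}
  add_mem' := fun ⟨N, h⟩ ⟨M, h'⟩ => ⟨max N M, Submodule.add_mem _
    (O.U_mono (le_max_left _ _) h) (O.U_mono (le_max_right _ _) h')⟩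
  mul_mem' := fun ⟨N, h⟩ ⟨M, h'⟩ => ⟨_, le_U (O.U N * O.U M) ⟨Module.Finite.iff_fg.2
    ((Module.Finite.iff_fg.1 inferInstance).mul (Module.Finite.iff_fg.1 inferInstance)), le_rfl,
    fun y f hf => Submodule.mul_induction_on hf (fun a ha b hb => by
      rw [map_mul]
      exact Submodule.mul_mem_mul (O.linv_U N y a ha) (O.linv_U M y b hb)) fun a b ha hb => by
      rw [map_add]
      exact Submodule.add_mem _ ha hb,
    Submodule.mul_le.2 fun a ha b hb => O.H0.mul_mem (O.U_le N ha) (O.U_le M hb)⟩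
    (Submodule.mul_mem_mul h h')⟩
  algebraMap_mem' c := ⟨_, le_U (Submodule.span ℂ {algebraMap ℂ O.H c})
    ⟨inferInstance, le_rfl, fun y f hf => by
      obtain ⟨a, rfl⟩ := Submodule.mem_span_singleton.1 hf
      rwa [map_smul, AlgHom.commutes],
    (Submodule.span_singleton_le_iff_mem _ _).2 (O.H0.algebraMap_mem c)⟩
    (Submodule.mem_span_singleton_self _)⟩

theorem exists_co_mem : ∃ N, ∀ w, O.co w ∈ O.U N := by
  let b := Module.finBasis ℝ E
  have h1 : ∀ w, O.co w ∈ Submodule.span ℂ (Set.range fun i => O.co (b i)) := fun w => by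
    have h2 : O.co w = ∑ i, (b.repr w i : ℂ) • O.co (b i) := ext' fun x => by
      simp only [map_sum, map_smul, ContinuousMap.sum_apply, ContinuousMap.smul_apply, cm_co]
      conv_lhs => rw [← b.sum_repr w, sum_inner]
      simp [inner_smul_left]
    rw [h2]
    exact Submodule.sum_mem _ fun i _ => Submodule.smul_mem _ _ (Submodule.subset_span ⟨i, rfl⟩)
  refine ⟨_, fun w => le_U (Submodule.span ℂ (Set.range fun i => O.co (b i)))
    ⟨FiniteDimensional.span_of_finite _ (Set.finite_range _), le_rfl, fun y => ?_, ?_⟩ (h1 w)⟩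
  · change Submodule.span ℂ (Set.range fun i => O.co (b i)) ≤
      Submodule.comap (act y 1).toLinearMap (Submodule.span ℂ (Set.range fun i => O.co (b i)))
    rw [Submodule.span_le]
    rintro _ ⟨i, rfl⟩
    have h2 : act y 1 (O.co (b i)) = O.co (star (val y) • b i) := ext' fun x => by
      simp [O.adj, mul_smul]
    exact (congrArg (· ∈ _) h2).mpr (h1 _)
  · rw [Submodule.span_le]
    rintro _ ⟨i, rfl⟩ x y h
    simp [h]

theorem mem_Rep {f : O.H} : f ∈ O.Rep ↔ ∃ N, f ∈ O.U N := Iff.rfl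

theorem co_mem (w : E) : O.co w ∈ O.Rep := O.mem_Rep.2 (O.exists_co_mem.imp fun _ h => h w)

theorem dense {g : O.H} (hg : g ∈ O.H0) (h : ∀ N, g ∈ (O.U N)ᗮ) : g = 0 := by
  let X := Set.range fun x : grp O.g => val x • O.v
  have hc : Continuous fun x : grp O.g => val x • O.v := O.ev.continuous.comp continuous_val
  have : CompactSpace X := isCompact_iff_compactSpace.1 (isCompact_range hc)
  let π : C(grp O.g, X) := ⟨Set.rangeFactorization _, hc.rangeFactorization⟩
  have hπ : IsQuotientMap π := π.continuous.isClosedMap.isQuotientMap π.continuous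
    Set.rangeFactorization_surjective
  let S : Subalgebra ℝ C(X, ℝ) :=
    { carrier := {φ | ∃ f ∈ O.Rep, ∀ x, cm f x = φ (π x)}
      mul_mem' := fun ⟨f, hf, h⟩ ⟨g, hg, h'⟩ => ⟨_, mul_mem hf hg, fun x => by simp [h, h']⟩
      add_mem' := fun ⟨f, hf, h⟩ ⟨g, hg, h'⟩ => ⟨_, add_mem hf hg, fun x => by simp [h, h']⟩
      algebraMap_mem' c := ⟨_, O.Rep.algebraMap_mem c, fun x => by simp⟩ }
  have hS := ContinuousMap.subalgebra_topologicalClosure_eq_top_of_separatesPoints S
    fun a b hab => ⟨_, ⟨⟨fun z => inner ℝ (a.1 - b.1) z.1, by fun_prop⟩,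
      ⟨_, O.co_mem (a.1 - b.1), fun x => rfl⟩, rfl⟩, fun h1 => hab (Subtype.ext (by
        rw [← sub_eq_zero, ← inner_self_eq_zero (𝕜 := ℝ), inner_sub_right, sub_eq_zero]
        exact h1))⟩
  let ι : C(X, ℝ) → C(grp O.g, ℂ) := fun φ =>
    (⟨_, Complex.continuous_ofReal⟩ : C(ℝ, ℂ)).comp (φ.comp π)
  have hι : Continuous ι :=
    (ContinuousMap.continuous_postcomp _).comp (ContinuousMap.continuous_precomp _)
  have h1 : ∀ φ, inner ℂ (toL g) (ContinuousMap.toLp 2 O.μ ℂ (ι φ)) = 0 := fun φ => by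
    refine closure_minimal (s := S) (t := {φ | inner ℂ (toL g)
      (ContinuousMap.toLp 2 O.μ ℂ (ι φ)) = 0}) ?_ (isClosed_eq (by fun_prop) continuous_const)
      (show φ ∈ S.topologicalClosure from hS ▸ trivial)
    rintro ψ ⟨f, hN, hf⟩
    obtain ⟨N, hN⟩ := O.mem_Rep.1 hN
    have h2 : ι ψ = cm f := ContinuousMap.ext fun x => (hf x).symm
    rw [Set.mem_ofPred_eq, h2]
    exact (Submodule.inner_left_of_mem_orthogonal hN (h N) : inner ℂ g f = 0)
  have h2 : ∀ L : ℂ →L[ℝ] ℝ, ∃ φ, ∀ x, ι φ x = L (cm g x) := fun L =>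
    ⟨hπ.lift ((L : C(ℂ, ℝ)).comp (cm g)) fun x y hxy =>
      congrArg L (hg x y (congrArg Subtype.val hxy)), fun x =>
      congrArg Complex.ofReal (ContinuousMap.congr_fun (hπ.lift_comp _ _) x)⟩
  obtain ⟨a, ha⟩ := h2 Complex.reCLM
  obtain ⟨b, hb⟩ := h2 Complex.imCLM
  have h3 : cm g = ι a + Complex.I • ι b := ContinuousMap.ext fun x => by
    simp [ha, hb, mul_comm Complex.I]
  rw [← inner_self_eq_zero (𝕜 := ℂ)]
  change inner ℂ (toL g) (ContinuousMap.toLp 2 O.μ ℂ (cm g)) = 0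
  rw [h3, map_add, map_smul, inner_add_right, inner_smul_right, h1, h1, mul_zero, add_zero]

end Orb

end Pool.Agent.Lib.MP_1a4aff_gt
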